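import Pool.Agent.Lib.H47G.Conn

/-!
# Menger's theorem for connected sets

If no set of fewer than `k` vertices separates `A` from `B` in `S`, there are `k` pairwise disjoint
connected subsets of `S` which meet both `A` and `B`.
-/

open Classical

namespace H47G

variable {V : Type} {G : SimpleGraph V}

/-- It suffices to consider the sets which avoid a given vertex `z`. -/
theorem conn_of_root {F : Finset V} {z : V}
    (h : ∀ A ⊆ F, A.Nonempty → z ∉ A → ∃ a ∈ A, ∃ b ∈ F, b ∉ A ∧ G.Adj a b) : Conn G F := by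
  intro A hA hn hne
  by_cases hzA : z ∈ A
  · have h1 : (F \ A).Nonempty := by
      rw [Finset.sdiff_nonempty]
      exact fun h ↦ hne (Finset.Subset.antisymm hA h)
    obtain ⟨a, ha, b, hb, hbA, hab⟩ := h (F \ A) Finset.sdiff_subset h1 (by simp [hzA])
    obtain ⟨ha1, ha2⟩ := Finset.mem_sdiff.1 ha
    have hbA' : b ∈ A := by
      by_contra hh
      exact hbA (Finset.mem_sdiff.2 ⟨hb, hh⟩)
    exact ⟨b, hbA', a, ha1, ha2, hab.symm⟩
  · exact h A hA hn hzA

/-- `Z` separates `A` from `B` in `S`, and `U` is the side of `A`. -/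
structure Sep (G : SimpleGraph V) (S A B Z U : Finset V) : Prop where
  zs : Z ⊆ S
  us : U ⊆ S \ Z
  au : A \ Z ⊆ U
  ub : Disjoint U B
  cl : ∀ a ∈ U, ∀ b ∈ S, b ∉ Z → b ∉ U → ¬ G.Adj a b

theorem Sep.symm {S A B Z U : Finset V} (h : Sep G S A B Z U) (hB : B ⊆ S) :
    Sep G S B A Z ((S \ Z) \ U) where
  zs := h.zs
  us := Finset.sdiff_subset
  au := by
    intro b hb
    obtain ⟨h1, h2⟩ := Finset.mem_sdiff.1 hb
    exact Finset.mem_sdiff.2 ⟨Finset.mem_sdiff.2 ⟨hB h1, h2⟩,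
      fun h3 ↦ Finset.disjoint_left.1 h.ub h3 h1⟩
  ub := by
    rw [Finset.disjoint_left]
    intro a ha haA
    obtain ⟨h1, h2⟩ := Finset.mem_sdiff.1 ha
    exact h2 (h.au (Finset.mem_sdiff.2 ⟨haA, (Finset.mem_sdiff.1 h1).2⟩))
  cl := by
    intro a ha b hb hbZ hbU hab
    obtain ⟨h1, h2⟩ := Finset.mem_sdiff.1 ha
    obtain ⟨h3, h4⟩ := Finset.mem_sdiff.1 h1
    have hbU' : b ∈ U := by
      by_contra hh
      exact hbU (Finset.mem_sdiff.2 ⟨Finset.mem_sdiff.2 ⟨hb, hbZ⟩, hh⟩)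
    exact h.cl b hbU' a h3 h4 h2 hab.symm

/-- The ordered pairs of adjacent vertices of `S`. -/
noncomputable def pairs (G : SimpleGraph V) (S : Finset V) : Finset (V × V) :=
  (S ×ˢ S).filter fun q ↦ G.Adj q.1 q.2

theorem mem_pairs {S : Finset V} {q : V × V} :
    q ∈ pairs G S ↔ (q.1 ∈ S ∧ q.2 ∈ S) ∧ G.Adj q.1 q.2 := by
  simp [pairs]

/-- `k` disjoint connected subsets of `S` which meet `A` and `B`. -/
def Linkage (G : SimpleGraph V) (S A B : Finset V) (k : ℕ) : Prop :=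
  ∃ f : Fin k → Finset V, (∀ i, f i ⊆ S) ∧ (∀ i, Conn G (f i)) ∧ (∀ i, (f i ∩ A).Nonempty) ∧
    (∀ i, (f i ∩ B).Nonempty) ∧ ∀ i j, i ≠ j → Disjoint (f i) (f j)

theorem linkage_of_le_card {S A B : Finset V} {k : ℕ} (hA : A ⊆ S) (h : k ≤ (A ∩ B).card) :
    Linkage G S A B k := by
  let e := (A ∩ B).equivFin.symm
  have he : ∀ i : Fin k, ((e (Fin.castLE h i) : (A ∩ B : Finset V)) : V) ∈ A ∩ B :=
    fun i ↦ (e (Fin.castLE h i)).2
  refine ⟨fun i ↦ {((e (Fin.castLE h i) : (A ∩ B : Finset V)) : V)}, fun i ↦ ?_,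
    fun i ↦ conn_singleton _, fun i ↦ ?_, fun i ↦ ?_, fun i j hij ↦ ?_⟩
  · simpa using hA (Finset.mem_inter.1 (he i)).1
  · rw [Finset.singleton_inter_of_mem (Finset.mem_inter.1 (he i)).1]
    exact Finset.singleton_nonempty _
  · rw [Finset.singleton_inter_of_mem (Finset.mem_inter.1 (he i)).2]
    exact Finset.singleton_nonempty _
  · rw [Finset.disjoint_singleton]
    intro h1
    have h2 := e.injective (Subtype.ext h1)
    exact hij (Fin.castLE_injective h h2)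

theorem menger_noedge {S A B : Finset V} {k : ℕ} (hE : pairs G S = ∅) (hA : A ⊆ S)
    (h : ∀ Z U, Sep G S A B Z U → k ≤ Z.card) : Linkage G S A B k := by
  refine linkage_of_le_card hA (h (A ∩ B) (A \ B) ⟨?_, ?_, ?_, ?_, ?_⟩)
  · exact Finset.inter_subset_left.trans hA
  · intro x hx
    obtain ⟨h1, h2⟩ := Finset.mem_sdiff.1 hx
    simp [hA h1, h2]
  · intro x hx
    simp only [Finset.mem_sdiff, Finset.mem_inter, not_and] at hx ⊢
    exact ⟨hx.1, hx.2 hx.1⟩
  · exact Finset.sdiff_disjoint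
  · intro a ha b hb _ _ hab
    have : (a, b) ∈ pairs G S := mem_pairs.2 ⟨⟨hA (Finset.mem_sdiff.1 ha).1, hb⟩, hab⟩
    simp [hE] at this

/-- Truncation of a connected set at a separator. -/
theorem conn_trunc {S Z U F : Finset V} {z : V} (hF : Conn G F) (hFS : F ⊆ S)
    (hz : F ∩ Z = {z}) (cl : ∀ a ∈ U, ∀ b ∈ S, b ∉ Z → b ∉ U → ¬ G.Adj a b) :
    Conn G (F ∩ (U ∪ Z)) := by
  have hz' : z ∈ F ∩ Z := by simp [hz]
  obtain ⟨hzF, hzZ⟩ := Finset.mem_inter.1 hz'
  refine conn_of_root (z := z) fun A hA hn hzA ↦ ?_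
  obtain ⟨a, ha, b, hb, hbA, hab⟩ := hF A (hA.trans Finset.inter_subset_left) hn
    (fun h ↦ hzA (h ▸ hzF))
  refine ⟨a, ha, b, Finset.mem_inter.2 ⟨hb, ?_⟩, hbA, hab⟩
  by_cases hbZ : b ∈ Z
  · exact Finset.mem_union_right _ hbZ
  · refine Finset.mem_union_left _ ?_
    by_contra hbU
    obtain ⟨ha1, ha2⟩ := Finset.mem_inter.1 (hA ha)
    rcases Finset.mem_union.1 ha2 with h | h
    · exact cl a h b (hFS hb) hbZ hbU hab
    · have : a ∈ F ∩ Z := Finset.mem_inter.2 ⟨ha1, h⟩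
      rw [hz, Finset.mem_singleton] at this
      exact hzA (this ▸ ha)

/-- If `k = |Z|` disjoint sets meet `Z`, each meets it in exactly one vertex, and every vertex of
`Z` is hit. -/
theorem hits {Z : Finset V} {k : ℕ} (hZ : Z.card = k) (f : Fin k → Finset V)
    (h1 : ∀ i, (f i ∩ Z).Nonempty) (h2 : ∀ i j, i ≠ j → Disjoint (f i) (f j)) :
    ∃ z : Fin k → V, (∀ i, f i ∩ Z = {z i}) ∧ ∀ y ∈ Z, ∃ i, z i = y := by
  choose z hz using h1
  have hzZ : ∀ i, z i ∈ Z := fun i ↦ (Finset.mem_inter.1 (hz i)).2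
  have hzf : ∀ i, z i ∈ f i := fun i ↦ (Finset.mem_inter.1 (hz i)).1
  have hinj : Function.Injective z := by
    intro i j hij
    by_contra hne
    exact Finset.disjoint_left.1 (h2 i j hne) (hzf i) (hij ▸ hzf j)
  have himg : Finset.univ.image z = Z := by
    refine Finset.eq_of_subset_of_card_le (fun y hy ↦ ?_) ?_
    · obtain ⟨i, -, rfl⟩ := Finset.mem_image.1 hy
      exact hzZ i
    · rw [Finset.card_image_of_injective _ hinj, Finset.card_univ, Fintype.card_fin, hZ]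
  have hsurj : ∀ y ∈ Z, ∃ i, z i = y := by
    intro y hy
    rw [← himg] at hy
    obtain ⟨i, -, hi⟩ := Finset.mem_image.1 hy
    exact ⟨i, hi⟩
  refine ⟨z, fun i ↦ ?_, hsurj⟩
  ext y
  rw [Finset.mem_singleton, Finset.mem_inter]
  constructor
  · rintro ⟨hy1, hy2⟩
    obtain ⟨j, rfl⟩ := hsurj y hy2
    by_contra hne
    exact Finset.disjoint_left.1 (h2 i j fun h ↦ hne (by rw [h])) hy1 (hzf j)
  · rintro rfl
    exact ⟨hzf i, hzZ i⟩

/-- Two linkages at a separator combine. -/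
theorem linkage_combine {S A B Z U : Finset V} {k : ℕ} (hA : A ⊆ S) (hB : B ⊆ S)
    (hs : Sep G S A B Z U) (hZ : Z.card = k) (hf : Linkage G S A Z k) (hg : Linkage G S B Z k) :
    Linkage G S A B k := by
  obtain ⟨f, f1, f2, f3, f4, f5⟩ := hf
  obtain ⟨g, g1, g2, g3, g4, g5⟩ := hg
  obtain ⟨z, z1, z2⟩ := hits hZ f f4 f5
  obtain ⟨y, y1, y2⟩ := hits hZ g g4 g5
  have hs' := hs.symm hB
  set W := (S \ Z) \ U with hW
  have zZ : ∀ i, z i ∈ f i ∧ z i ∈ Z := fun i ↦ Finset.mem_inter.1 (by simp [z1 i])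
  have yZ : ∀ i, y i ∈ g i ∧ y i ∈ Z := fun i ↦ Finset.mem_inter.1 (by simp [y1 i])
  choose σ hσ using fun i ↦ y2 (z i) (zZ i).2
  have zinj : ∀ i j, z i = z j → i = j := by
    intro i j hij
    by_contra hne
    exact Finset.disjoint_left.1 (f5 i j hne) (zZ i).1 (hij ▸ (zZ j).1)
  have σinj : ∀ i j, σ i = σ j → i = j := by
    intro i j hij
    exact zinj i j (by rw [← hσ i, ← hσ j, hij])
  have cross : ∀ i j, i ≠ j → Disjoint (f i ∩ (U ∪ Z)) (g (σ j) ∩ (W ∪ Z)) := by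
    intro i j hij
    rw [Finset.disjoint_left]
    intro t ht ht'
    obtain ⟨t1, t2⟩ := Finset.mem_inter.1 ht
    obtain ⟨t3, t4⟩ := Finset.mem_inter.1 ht'
    have tZ : t ∈ Z := by
      rcases Finset.mem_union.1 t2 with h | h
      · rcases Finset.mem_union.1 t4 with h' | h'
        · exact absurd h (Finset.mem_sdiff.1 h').2
        · exact h'
      · exact h
    have e1 : t ∈ f i ∩ Z := Finset.mem_inter.2 ⟨t1, tZ⟩
    have e2 : t ∈ g (σ j) ∩ Z := Finset.mem_inter.2 ⟨t3, tZ⟩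
    rw [z1 i, Finset.mem_singleton] at e1
    rw [y1 (σ j), Finset.mem_singleton, hσ j] at e2
    exact hij (zinj i j (e1.symm.trans e2))
  refine ⟨fun i ↦ (f i ∩ (U ∪ Z)) ∪ (g (σ i) ∩ (W ∪ Z)), fun i ↦ ?_, fun i ↦ ?_, fun i ↦ ?_,
    fun i ↦ ?_, fun i j hij ↦ ?_⟩
  · exact Finset.union_subset (Finset.inter_subset_left.trans (f1 i))
      (Finset.inter_subset_left.trans (g1 _))
  · refine (conn_trunc (f2 i) (f1 i) (z1 i) hs.cl).union
      (conn_trunc (g2 _) (g1 _) (y1 _) hs'.cl) ⟨z i, ?_⟩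
    have h3 := yZ (σ i)
    rw [hσ i] at h3
    simp [(zZ i).1, (zZ i).2, h3.1]
  · obtain ⟨a, ha⟩ := f3 i
    obtain ⟨ha1, ha2⟩ := Finset.mem_inter.1 ha
    refine ⟨a, Finset.mem_inter.2 ⟨Finset.mem_union_left _ (Finset.mem_inter.2 ⟨ha1, ?_⟩), ha2⟩⟩
    by_cases haZ : a ∈ Z
    · exact Finset.mem_union_right _ haZ
    · exact Finset.mem_union_left _ (hs.au (Finset.mem_sdiff.2 ⟨ha2, haZ⟩))
  · obtain ⟨a, ha⟩ := g3 (σ i)
    obtain ⟨ha1, ha2⟩ := Finset.mem_inter.1 ha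
    refine ⟨a, Finset.mem_inter.2 ⟨Finset.mem_union_right _ (Finset.mem_inter.2 ⟨ha1, ?_⟩), ha2⟩⟩
    by_cases haZ : a ∈ Z
    · exact Finset.mem_union_right _ haZ
    · exact Finset.mem_union_left _ (hs'.au (Finset.mem_sdiff.2 ⟨ha2, haZ⟩))
  · simp only [Finset.disjoint_union_left, Finset.disjoint_union_right]
    refine ⟨⟨?_, (cross j i hij.symm).symm⟩, cross i j hij, ?_⟩
    · exact (f5 i j hij).mono Finset.inter_subset_left Finset.inter_subset_left
    · exact (g5 _ _ fun h ↦ hij (σinj i j h)).mono Finset.inter_subset_left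
        Finset.inter_subset_left

/-- The image of `A` under the map which sends `y` to `x`. -/
noncomputable def pr (x y : V) (A : Finset V) : Finset V := if y ∈ A then insert x (A.erase y) else A

theorem mem_pr {x y z : V} (hxy : x ≠ y) {A : Finset V} :
    z ∈ pr x y A ↔ (z ∈ A ∧ z ≠ y) ∨ (z = x ∧ y ∈ A) := by
  unfold pr
  split
  next h =>
    rw [Finset.mem_insert, Finset.mem_erase]
    tauto
  next h =>
    constructor
    · exact fun hz ↦ Or.inl ⟨hz, fun e ↦ h (e ▸ hz)⟩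
    · rintro (⟨h1, -⟩ | ⟨-, h1⟩)
      · exact h1
      · exact absurd h1 h

theorem pr_subset {x y : V} (hxy : x ≠ y) {A S : Finset V} (hA : A ⊆ S) (hx : x ∈ S) :
    pr x y A ⊆ S.erase y := by
  intro z hz
  rcases (mem_pr hxy).1 hz with ⟨h1, h2⟩ | ⟨rfl, -⟩
  · exact Finset.mem_erase.2 ⟨h2, hA h1⟩
  · exact Finset.mem_erase.2 ⟨hxy, hx⟩

theorem linkage_lift {S A B : Finset V} {x y : V} (hxy : G.Adj x y) (hx : x ∈ S) (hy : y ∈ S)
    {k : ℕ} (h : Linkage (con G x y) (S.erase y) (pr x y A) (pr x y B) k) :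
    Linkage G S A B k := by
  obtain ⟨f, f1, f2, f3, f4, f5⟩ := h
  have hyf : ∀ i, y ∉ f i := fun i h ↦ absurd (f1 i h) (Finset.notMem_erase y S)
  have key : ∀ (C : Finset V) (i : Fin k), (f i ∩ pr x y C).Nonempty →
      (lift x y (f i) ∩ C).Nonempty := by
    rintro C i ⟨c, hc⟩
    obtain ⟨h1, h2⟩ := Finset.mem_inter.1 hc
    rcases (mem_pr hxy.ne).1 h2 with ⟨h3, -⟩ | ⟨rfl, h3⟩
    · exact ⟨c, Finset.mem_inter.2 ⟨subset_lift h1, h3⟩⟩
    · exact ⟨y, Finset.mem_inter.2 ⟨mem_lift.2 (Or.inr ⟨h1, rfl⟩), h3⟩⟩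
  refine ⟨fun i ↦ lift x y (f i), fun i ↦ ?_, fun i ↦ (f2 i).lift hxy (hyf i),
    fun i ↦ key A i (f3 i), fun i ↦ key B i (f4 i), fun i j hij ↦ ?_⟩
  · exact lift_subset ((f1 i).trans (Finset.erase_subset _ _)) hy
  · exact lift_disjoint (f5 i j hij) (hyf i) (hyf j)

/-- A separator of the contracted graph which avoids `x` is a separator. -/
theorem sep_lift {S A B Z U : Finset V} {x y : V} (hxy : G.Adj x y) (hx : x ∈ S) (hy : y ∈ S)
    (hs : Sep (con G x y) (S.erase y) (pr x y A) (pr x y B) Z U) (hxZ : x ∉ Z) :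
    Sep G S A B Z (lift x y U) where
  zs := hs.zs.trans (Finset.erase_subset _ _)
  us := by
    intro z hz
    rcases mem_lift.1 hz with h | ⟨-, rfl⟩
    · obtain ⟨h1, h2⟩ := Finset.mem_sdiff.1 (hs.us h)
      exact Finset.mem_sdiff.2 ⟨Finset.mem_of_mem_erase h1, h2⟩
    · exact Finset.mem_sdiff.2 ⟨hy, fun h ↦ Finset.notMem_erase z S (hs.zs h)⟩
  au := by
    intro a ha
    obtain ⟨h1, h2⟩ := Finset.mem_sdiff.1 ha
    by_cases hay : a = y
    · subst hay
      exact mem_lift.2 (Or.inr ⟨hs.au (Finset.mem_sdiff.2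
        ⟨(mem_pr hxy.ne).2 (Or.inr ⟨rfl, h1⟩), hxZ⟩), rfl⟩)
    · exact mem_lift.2 (Or.inl (hs.au (Finset.mem_sdiff.2
        ⟨(mem_pr hxy.ne).2 (Or.inl ⟨h1, hay⟩), h2⟩)))
  ub := by
    rw [Finset.disjoint_left]
    intro z hz hzB
    rcases mem_lift.1 hz with h | ⟨h, rfl⟩
    · have hzy : z ≠ y := fun e ↦
        Finset.notMem_erase y S (e ▸ (Finset.mem_sdiff.1 (hs.us h)).1)
      exact Finset.disjoint_left.1 hs.ub h ((mem_pr hxy.ne).2 (Or.inl ⟨hzB, hzy⟩))
    · exact Finset.disjoint_left.1 hs.ub h ((mem_pr hxy.ne).2 (Or.inr ⟨rfl, hzB⟩))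
  cl := by
    intro a ha b hb hbZ hbU hab
    have hbU1 : b ∉ U := fun h ↦ hbU (mem_lift.2 (Or.inl h))
    rcases mem_lift.1 ha with h | ⟨h, rfl⟩
    · by_cases hby : b = y
      · subst hby
        have hxU : x ∉ U := fun h ↦ hbU (mem_lift.2 (Or.inr ⟨h, rfl⟩))
        refine hs.cl a h x (Finset.mem_erase.2 ⟨hxy.ne, hx⟩) hxZ hxU ?_
        exact ⟨fun e ↦ hxU (e ▸ h), Or.inr (Or.inr ⟨rfl, hab.symm⟩)⟩
      · exact hs.cl a h b (Finset.mem_erase.2 ⟨hby, hb⟩) hbZ hbU1 (le_con hab)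
    · refine hs.cl x h b (Finset.mem_erase.2 ⟨hab.ne', hb⟩) hbZ hbU1 ?_
      exact ⟨fun e ↦ hbU1 (e ▸ h), Or.inr (Or.inl ⟨rfl, hab⟩)⟩

/-- A separator of the contracted graph which contains `x`. -/
theorem sep_insert {S A B Z U : Finset V} {x y : V} (hxy : G.Adj x y) (hy : y ∈ S)
    (hs : Sep (con G x y) (S.erase y) (pr x y A) (pr x y B) Z U) :
    Sep G S A B (insert y Z) U where
  zs := Finset.insert_subset hy (hs.zs.trans (Finset.erase_subset _ _))
  us := by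
    intro z hz
    obtain ⟨h1, h2⟩ := Finset.mem_sdiff.1 (hs.us hz)
    obtain ⟨h3, h4⟩ := Finset.mem_erase.1 h1
    simp [h2, h3, h4]
  au := by
    intro a ha
    simp only [Finset.mem_sdiff, Finset.mem_insert, not_or] at ha
    exact hs.au (Finset.mem_sdiff.2 ⟨(mem_pr hxy.ne).2 (Or.inl ⟨ha.1, ha.2.1⟩), ha.2.2⟩)
  ub := by
    rw [Finset.disjoint_left]
    intro z hz hzB
    have hzy : z ≠ y := fun e ↦
      Finset.notMem_erase y S (e ▸ (Finset.mem_sdiff.1 (hs.us hz)).1)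
    exact Finset.disjoint_left.1 hs.ub hz ((mem_pr hxy.ne).2 (Or.inl ⟨hzB, hzy⟩))
  cl := by
    intro a ha b hb hbZ hbU hab
    simp only [Finset.mem_insert, not_or] at hbZ
    exact hs.cl a ha b (Finset.mem_erase.2 ⟨hbZ.1, hb⟩) hbZ.2 hbU (le_con hab)

/-- Separators of `A` and `Z` after deletion of an edge inside `Z`. -/
theorem sep_half {S A B Z U Z₂ U₂ : Finset V} {x y : V} (hs : Sep G S A B Z U)
    (hx : x ∈ Z) (hy : y ∈ Z) (hs₂ : Sep (G.deleteEdges {s(x, y)}) S A Z Z₂ U₂) :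
    Sep G S A B Z₂ (U ∩ U₂) where
  zs := hs₂.zs
  us := Finset.inter_subset_right.trans hs₂.us
  au := by
    intro a ha
    have h1 := hs₂.au ha
    have h2 : a ∉ Z := fun h ↦ Finset.disjoint_left.1 hs₂.ub h1 h
    exact Finset.mem_inter.2 ⟨hs.au (Finset.mem_sdiff.2 ⟨(Finset.mem_sdiff.1 ha).1, h2⟩), h1⟩
  ub := hs.ub.mono_left Finset.inter_subset_left
  cl := by
    intro a ha b hb hbZ hbU hab
    obtain ⟨h1, h2⟩ := Finset.mem_inter.1 ha
    have haZ : a ∉ Z := fun h ↦ Finset.disjoint_left.1 hs₂.ub h2 h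
    have hb2 : b ∈ U₂ := by
      by_contra hh
      refine hs₂.cl a h2 b hb hbZ hh ?_
      rw [SimpleGraph.deleteEdges_adj]
      refine ⟨hab, fun e ↦ ?_⟩
      rw [Set.mem_singleton_iff, Sym2.eq_iff] at e
      rcases e with ⟨rfl, -⟩ | ⟨rfl, -⟩
      · exact haZ hx
      · exact haZ hy
    have hbZ' : b ∉ Z := fun h ↦ Finset.disjoint_left.1 hs₂.ub hb2 h
    have hb1 : b ∈ U := by
      by_contra hh
      exact hs.cl a h1 b hb hbZ' hh hab
    exact hbU (Finset.mem_inter.2 ⟨hb1, hb2⟩)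

theorem pairs_deleteEdges_card_lt {S : Finset V} {x y : V} (h : (x, y) ∈ pairs G S) :
    (pairs (G.deleteEdges {s(x, y)}) S).card < (pairs G S).card := by
  refine Finset.card_lt_card ⟨fun q hq ↦ ?_, fun h1 ↦ ?_⟩
  · rw [mem_pairs] at hq ⊢
    exact ⟨hq.1, (SimpleGraph.deleteEdges_adj.1 hq.2).1⟩
  · have := (mem_pairs.1 (h1 h)).2
    rw [SimpleGraph.deleteEdges_adj] at this
    exact this.2 rfl

theorem menger_aux (n : ℕ) : ∀ (m : ℕ) (G : SimpleGraph V) (S A B : Finset V) (k : ℕ),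
    S.card ≤ n → (pairs G S).card ≤ m → A ⊆ S → B ⊆ S →
    (∀ Z U, Sep G S A B Z U → k ≤ Z.card) → Linkage G S A B k := by
  induction n with
  | zero =>
    intro m G S A B k hn _ hA _ h
    refine menger_noedge ?_ hA h
    have : S = ∅ := Finset.card_eq_zero.1 (Nat.le_zero.1 hn)
    simp [this, pairs]
  | succ n ihn =>
    intro m
    induction m with
    | zero =>
      intro G S A B k _ hm hA _ h
      exact menger_noedge (Finset.card_eq_zero.1 (Nat.le_zero.1 hm)) hA h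
    | succ m ihm =>
      intro G S A B k hn hm hA hB h
      by_cases hE : pairs G S = ∅
      · exact menger_noedge hE hA h
      obtain ⟨⟨x, y⟩, hxy'⟩ := Finset.nonempty_iff_ne_empty.2 hE
      obtain ⟨⟨hx, hy⟩, hxy⟩ := mem_pairs.1 hxy'
      simp only at hx hy hxy
      by_cases hc : ∀ Z U, Sep (con G x y) (S.erase y) (pr x y A) (pr x y B) Z U → k ≤ Z.card
      · refine linkage_lift hxy hx hy (ihn _ (con G x y) (S.erase y) (pr x y A) (pr x y B) k ?_
          le_rfl (pr_subset hxy.ne hA hx) (pr_subset hxy.ne hB hx) hc)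
        rw [Finset.card_erase_of_mem hy]
        omega
      · push Not at hc
        obtain ⟨Z₁, U₁, hs, hlt⟩ := hc
        have hxZ : x ∈ Z₁ := by
          by_contra hxZ
          have := h _ _ (sep_lift hxy hx hy hs hxZ)
          omega
        have hs' := sep_insert hxy hy hs
        have hyZ : y ∉ Z₁ := fun h ↦ Finset.notMem_erase y S (hs.zs h)
        have hk : (insert y Z₁).card = k := by
          have h1 := h _ _ hs'
          rw [Finset.card_insert_of_notMem hyZ] at h1 ⊢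
          omega
        have hsym : ∀ Z U, Sep G S B A Z U → k ≤ Z.card := fun Z U hZU ↦ h _ _ (hZU.symm hA)
        have hx' : x ∈ insert y Z₁ := Finset.mem_insert_of_mem hxZ
        have hy' : y ∈ insert y Z₁ := Finset.mem_insert_self _ _
        have hd : (pairs (G.deleteEdges {s(x, y)}) S).card ≤ m := by
          have := pairs_deleteEdges_card_lt hxy'
          omega
        have mono : ∀ {C : Finset V}, Linkage (G.deleteEdges {s(x, y)}) S C (insert y Z₁) k →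
            Linkage G S C (insert y Z₁) k := by
          rintro C ⟨f, f1, f2, f3, f4, f5⟩
          exact ⟨f, f1, fun i ↦ (f2 i).mono fun a _ b _ hab ↦
            (SimpleGraph.deleteEdges_adj.1 hab).1, f3, f4, f5⟩
        refine linkage_combine hA hB hs' hk (mono ?_) (mono ?_)
        · exact ihm _ S A (insert y Z₁) k hn hd hA hs'.zs
            fun Z U hZU ↦ h _ _ (sep_half hs' hx' hy' hZU)
        · exact ihm _ S B (insert y Z₁) k hn hd hB hs'.zs
            fun Z U hZU ↦ hsym _ _ (sep_half (hs'.symm hB) hx' hy' hZU)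

/-- **Menger's theorem**. -/
theorem menger {S A B : Finset V} {k : ℕ} (hA : A ⊆ S) (hB : B ⊆ S)
    (h : ∀ Z U, Sep G S A B Z U → k ≤ Z.card) : Linkage G S A B k :=
  menger_aux S.card _ G S A B k le_rfl le_rfl hA hB h

end H47G
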