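import Mathlib

/-!
# Connected vertex sets (cut formulation)

`Conn G F`: for every proper nonempty subset `A` of the finite set `F` there is an edge of `G`
between `A` and `F \ A`.
-/

open Classical

namespace H47G

variable {V : Type}

/-- `F` induces a connected (or empty) subgraph. -/
def Conn (G : SimpleGraph V) (F : Finset V) : Prop :=
  ∀ A ⊆ F, A.Nonempty → A ≠ F → ∃ a ∈ A, ∃ b ∈ F, b ∉ A ∧ G.Adj a b

variable {G G' : SimpleGraph V}

theorem conn_empty : Conn G (∅ : Finset V) := by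
  intro A hA hn
  obtain ⟨a, ha⟩ := hn
  exact absurd (hA ha) (Finset.notMem_empty a)

theorem conn_singleton (x : V) : Conn G {x} := by
  intro A hA hn hne
  rcases Finset.subset_singleton_iff.1 hA with h | h
  · exact absurd hn (by simp [h])
  · exact absurd h hne

theorem Conn.mono {F : Finset V} (h : Conn G F) (hG : ∀ a ∈ F, ∀ b ∈ F, G.Adj a b → G'.Adj a b) :
    Conn G' F := by
  intro A hA hn hne
  obtain ⟨a, ha, b, hb, hbA, hab⟩ := h A hA hn hne
  exact ⟨a, ha, b, hb, hbA, hG a (hA ha) b hb hab⟩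

theorem Conn.union {F₁ F₂ : Finset V} (h₁ : Conn G F₁) (h₂ : Conn G F₂)
    (h : (F₁ ∩ F₂).Nonempty) : Conn G (F₁ ∪ F₂) := by
  intro A hA hn hne
  obtain ⟨c, hc⟩ := h
  obtain ⟨hc1, hc2⟩ := Finset.mem_inter.1 hc
  -- if `A` cuts `F₁` or `F₂`, we are done
  by_cases e₁ : (A ∩ F₁).Nonempty ∧ A ∩ F₁ ≠ F₁
  · obtain ⟨a, ha, b, hb, hbA, hab⟩ := h₁ _ Finset.inter_subset_right e₁.1 e₁.2
    refine ⟨a, (Finset.mem_inter.1 ha).1, b, Finset.mem_union_left _ hb, fun hbA' ↦ ?_, hab⟩
    exact hbA (Finset.mem_inter.2 ⟨hbA', hb⟩)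
  by_cases e₂ : (A ∩ F₂).Nonempty ∧ A ∩ F₂ ≠ F₂
  · obtain ⟨a, ha, b, hb, hbA, hab⟩ := h₂ _ Finset.inter_subset_right e₂.1 e₂.2
    refine ⟨a, (Finset.mem_inter.1 ha).1, b, Finset.mem_union_right _ hb, fun hbA' ↦ ?_, hab⟩
    exact hbA (Finset.mem_inter.2 ⟨hbA', hb⟩)
  exfalso
  by_cases hcA : c ∈ A
  · have f₁ : A ∩ F₁ = F₁ := by
      by_contra hh
      exact e₁ ⟨⟨c, Finset.mem_inter.2 ⟨hcA, hc1⟩⟩, hh⟩
    have f₂ : A ∩ F₂ = F₂ := by
      by_contra hh
      exact e₂ ⟨⟨c, Finset.mem_inter.2 ⟨hcA, hc2⟩⟩, hh⟩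
    exact hne (Finset.Subset.antisymm hA (Finset.union_subset (Finset.inter_eq_right.1 f₁)
      (Finset.inter_eq_right.1 f₂)))
  · obtain ⟨a, ha⟩ := hn
    rcases Finset.mem_union.1 (hA ha) with h' | h'
    · refine e₁ ⟨⟨a, Finset.mem_inter.2 ⟨ha, h'⟩⟩, fun hh ↦ hcA ?_⟩
      exact Finset.inter_eq_right.1 hh hc1
    · refine e₂ ⟨⟨a, Finset.mem_inter.2 ⟨ha, h'⟩⟩, fun hh ↦ hcA ?_⟩
      exact Finset.inter_eq_right.1 hh hc2

theorem conn_pair {a b : V} (h : G.Adj a b) : Conn G {a, b} := by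
  intro A hA hn hne
  obtain ⟨x, hx⟩ := hn
  by_cases ha : a ∈ A
  · by_cases hb : b ∈ A
    · exact absurd (Finset.Subset.antisymm hA (by
        intro y hy
        rcases Finset.mem_insert.1 hy with rfl | hy
        · exact ha
        · rwa [Finset.mem_singleton.1 hy])) hne
    · exact ⟨a, ha, b, by simp, hb, h⟩
  · have hb : b ∈ A := by
      rcases Finset.mem_insert.1 (hA hx) with rfl | hy
      · exact absurd hx ha
      · rwa [← Finset.mem_singleton.1 hy]
    exact ⟨b, hb, a, by simp, ha, h.symm⟩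

theorem Conn.insert {F : Finset V} (hF : Conn G F) {a b : V} (ha : a ∈ F) (h : G.Adj a b) :
    Conn G (insert b F) := by
  have := hF.union (conn_pair h) ⟨a, by simp [ha]⟩
  have e : F ∪ {a, b} = Insert.insert b F := by
    ext x
    simp only [Finset.mem_union, Finset.mem_insert, Finset.mem_singleton]
    constructor
    · rintro (h | rfl | h)
      · exact Or.inr h
      · exact Or.inr ha
      · exact Or.inl h
    · rintro (h | h)
      · exact Or.inr (Or.inr h)
      · exact Or.inl h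
  rwa [e] at this

/-- A vertex joined to all vertices of `R`. -/
theorem conn_star {v : V} {R : Finset V} (h : ∀ r ∈ R, G.Adj v r) : Conn G (insert v R) := by
  induction R using Finset.induction_on with
  | empty => simpa using conn_singleton v
  | insert r R hr ih =>
    have h1 := (ih fun x hx ↦ h x (Finset.mem_insert_of_mem hx)).insert
      (Finset.mem_insert_self v R) (h r (Finset.mem_insert_self r R))
    rwa [Finset.insert_comm] at h1

/-- A connected set together with connected sets which meet it. -/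
theorem Conn.biUnion {ι : Type} {F : Finset V} (hF : Conn G F) (I : Finset ι)
    (P : ι → Finset V) (hP : ∀ i ∈ I, Conn G (P i)) (hm : ∀ i ∈ I, (P i ∩ F).Nonempty) :
    Conn G (F ∪ I.biUnion P) := by
  induction I using Finset.induction_on with
  | empty => simpa using hF
  | insert i I hi ih =>
    have h1 := ih (fun j hj ↦ hP j (Finset.mem_insert_of_mem hj))
      (fun j hj ↦ hm j (Finset.mem_insert_of_mem hj))
    obtain ⟨x, hx⟩ := hm i (Finset.mem_insert_self i I)
    obtain ⟨hx1, hx2⟩ := Finset.mem_inter.1 hx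
    have h2 := h1.union (hP i (Finset.mem_insert_self i I))
      ⟨x, Finset.mem_inter.2 ⟨Finset.mem_union_left _ hx2, hx1⟩⟩
    have e : (F ∪ I.biUnion P) ∪ P i = F ∪ (Insert.insert i I).biUnion P := by
      rw [Finset.biUnion_insert, Finset.union_assoc, Finset.union_comm (I.biUnion P)]
    rwa [e] at h2

/-- The component of `r` in `M`. -/
theorem exists_component (G : SimpleGraph V) {M : Finset V} {r : V} (hr : r ∈ M) :
    ∃ K ⊆ M, r ∈ K ∧ Conn G K ∧ ∀ a ∈ K, ∀ b ∈ M, b ∉ K → ¬ G.Adj a b := by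
  let T := M.powerset.filter fun K ↦ r ∈ K ∧ Conn G K
  have hT : T.Nonempty := ⟨{r}, by simp [T, hr, conn_singleton]⟩
  obtain ⟨K, hK, hmax⟩ := T.exists_max_image Finset.card hT
  obtain ⟨hKM, hrK, hKc⟩ := by simpa only [T, Finset.mem_filter, Finset.mem_powerset] using hK
  refine ⟨K, hKM, hrK, hKc, fun a ha b hb hbK hab ↦ ?_⟩
  have h1 : insert b K ∈ T := by
    simp only [T, Finset.mem_filter, Finset.mem_powerset]
    exact ⟨Finset.insert_subset hb hKM, Finset.mem_insert_of_mem hrK, hKc.insert ha hab⟩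
  have h2 := hmax _ h1
  rw [Finset.card_insert_of_notMem hbK] at h2
  omega

/-- Either `R` lies in a connected subset of `M`, or `M` splits. -/
theorem conn_or_split (G : SimpleGraph V) {M R : Finset V} (hR : R ⊆ M) :
    (∃ F ⊆ M, R ⊆ F ∧ Conn G F) ∨
    ∃ K ⊆ M, (K ∩ R).Nonempty ∧ ((M \ K) ∩ R).Nonempty ∧
      ∀ a ∈ K, ∀ b ∈ M, b ∉ K → ¬ G.Adj a b := by
  rcases R.eq_empty_or_nonempty with h | ⟨r, hr⟩
  · exact Or.inl ⟨∅, by simp, by simp [h], conn_empty⟩
  obtain ⟨K, hKM, hrK, hKc, hcl⟩ := exists_component G (hR hr)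
  by_cases hRK : R ⊆ K
  · exact Or.inl ⟨K, hKM, hRK, hKc⟩
  · obtain ⟨s, hs, hsK⟩ := Finset.not_subset.1 hRK
    exact Or.inr ⟨K, hKM, ⟨r, by simp [hr, hrK]⟩, ⟨s, by simp [hs, hsK, hR hs]⟩, hcl⟩

/-- A connected set `P` with `x ∈ P` which meets `B` contains a connected set `Q` with `x ∈ Q`
which meets `B` in exactly one vertex. -/
theorem first_hit {P B : Finset V} (hP : Conn G P) {x : V} (hx : x ∈ P)
    (hB : (P ∩ B).Nonempty) : ∃ Q ⊆ P, x ∈ Q ∧ Conn G Q ∧ ∃ b, Q ∩ B = {b} := by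
  by_cases hxB : x ∈ B
  · exact ⟨{x}, by simpa using hx, by simp, conn_singleton x, x, by
      simp [Finset.singleton_inter_of_mem hxB]⟩
  obtain ⟨K, hKM, hxK, hKc, hcl⟩ := exists_component G (M := P \ B) (r := x) (by simp [hx, hxB])
  have hne : K ≠ P := by
    rintro rfl
    obtain ⟨b, hb⟩ := hB
    obtain ⟨hb1, hb2⟩ := Finset.mem_inter.1 hb
    exact (Finset.mem_sdiff.1 (hKM hb1)).2 hb2
  obtain ⟨a, ha, b, hb, hbK, hab⟩ := hP K (hKM.trans Finset.sdiff_subset) ⟨x, hxK⟩ hne
  have hbB : b ∈ B := by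
    by_contra hbB
    exact hcl a ha b (Finset.mem_sdiff.2 ⟨hb, hbB⟩) hbK hab
  refine ⟨insert b K, Finset.insert_subset hb (hKM.trans Finset.sdiff_subset),
    Finset.mem_insert_of_mem hxK, hKc.insert ha hab, b, ?_⟩
  ext y
  simp only [Finset.mem_inter, Finset.mem_insert, Finset.mem_singleton]
  constructor
  · rintro ⟨h1 | h1, h2⟩
    · exact h1
    · exact absurd h2 (Finset.mem_sdiff.1 (hKM h1)).2
  · rintro rfl
    exact ⟨Or.inl rfl, hbB⟩

/-- The contraction of `v` into `u` (the vertex `v` is to be deleted afterwards). -/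
def con (G : SimpleGraph V) (u v : V) : SimpleGraph V where
  Adj a b := a ≠ b ∧ (G.Adj a b ∨ (a = u ∧ G.Adj v b) ∨ (b = u ∧ G.Adj v a))
  symm := ⟨by
    rintro a b ⟨h, h1 | h1 | h1⟩
    · exact ⟨h.symm, Or.inl h1.symm⟩
    · exact ⟨h.symm, Or.inr (Or.inr h1)⟩
    · exact ⟨h.symm, Or.inr (Or.inl h1)⟩⟩
  loopless := ⟨fun a h ↦ h.1 rfl⟩

theorem con_adj {u v a b : V} : (con G u v).Adj a b ↔
    a ≠ b ∧ (G.Adj a b ∨ (a = u ∧ G.Adj v b) ∨ (b = u ∧ G.Adj v a)) := Iff.rfl

theorem con_adj_of_ne {u v a b : V} (ha : a ≠ u) (hb : b ≠ u) :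
    (con G u v).Adj a b ↔ G.Adj a b := by
  rw [con_adj]
  constructor
  · rintro ⟨-, h | h | h⟩
    · exact h
    · exact absurd h.1 ha
    · exact absurd h.1 hb
  · exact fun h ↦ ⟨h.ne, Or.inl h⟩

theorem le_con {u v a b : V} (h : G.Adj a b) : (con G u v).Adj a b := ⟨h.ne, Or.inl h⟩

/-- Lifting a set along a contraction. -/
noncomputable def lift (u v : V) (F : Finset V) : Finset V := if u ∈ F then insert v F else F

theorem subset_lift {u v : V} {F : Finset V} : F ⊆ lift u v F := by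
  unfold lift
  split
  · exact Finset.subset_insert _ _
  · exact Finset.Subset.refl _

theorem mem_lift {u v x : V} {F : Finset V} : x ∈ lift u v F ↔ x ∈ F ∨ (u ∈ F ∧ x = v) := by
  unfold lift
  split
  next h => simp [h, or_comm]
  next h => simp [h]

theorem lift_subset {u v : V} {F S : Finset V} (hF : F ⊆ S) (hv : v ∈ S) : lift u v F ⊆ S := by
  intro x hx
  rcases mem_lift.1 hx with h | h
  · exact hF h
  · exact h.2 ▸ hv

theorem lift_disjoint {u v : V} {F₁ F₂ : Finset V} (h : Disjoint F₁ F₂) (h1 : v ∉ F₁)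
    (h2 : v ∉ F₂) : Disjoint (lift u v F₁) (lift u v F₂) := by
  rw [Finset.disjoint_left] at h ⊢
  intro x hx hx'
  rcases mem_lift.1 hx with a | a <;> rcases mem_lift.1 hx' with b | b
  · exact h a b
  · exact h1 (b.2 ▸ a)
  · exact h2 (a.2 ▸ b)
  · exact h a.1 b.1

/-- Connected sets lift along the contraction of an edge. -/
theorem Conn.lift {u v : V} (huv : G.Adj u v) {F : Finset V} (hv : v ∉ F)
    (hF : Conn (con G u v) F) : Conn G (lift u v F) := by
  unfold H47G.lift
  split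
  next hu =>
    intro A hA hn hne
    by_cases h1 : u ∈ A
    · by_cases h2 : v ∈ A
      · -- both in `A`
        have hA' : A \ {v} ⊆ F := by
          intro x hx
          obtain ⟨hx1, hx2⟩ := Finset.mem_sdiff.1 hx
          rcases Finset.mem_insert.1 (hA hx1) with h | h
          · exact absurd (Finset.mem_singleton.2 h) hx2
          · exact h
        have hAne : A \ {v} ≠ F := by
          rintro rfl
          apply hne
          ext x
          by_cases hxv : x = v
          · simp [hxv, h2]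
          · simp [hxv]
        obtain ⟨a, ha, b, hb, hbA, hab⟩ := hF _ hA' ⟨u, by simp [h1, huv.ne]⟩ hAne
        have hbv : b ≠ v := fun h ↦ hv (h ▸ hb)
        have hbA' : b ∉ A := fun h ↦ hbA (by simp [h, hbv])
        obtain ⟨ha1, -⟩ := Finset.mem_sdiff.1 ha
        rcases hab.2 with h | h | h
        · exact ⟨a, ha1, b, Finset.mem_insert_of_mem hb, hbA', h⟩
        · exact ⟨v, h2, b, Finset.mem_insert_of_mem hb, hbA', h.2⟩
        · exact absurd (h.1 ▸ h1) hbA'
      · exact ⟨u, h1, v, Finset.mem_insert_self _ _, h2, huv⟩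
    · by_cases h2 : v ∈ A
      · exact ⟨v, h2, u, Finset.mem_insert_of_mem hu, h1, huv.symm⟩
      · have hA' : A ⊆ F := by
          intro x hx
          rcases Finset.mem_insert.1 (hA hx) with h | h
          · exact absurd (h ▸ hx) h2
          · exact h
        have hAne : A ≠ F := by
          rintro rfl
          exact h1 hu
        obtain ⟨a, ha, b, hb, hbA, hab⟩ := hF _ hA' hn hAne
        rcases hab.2 with h | h | h
        · exact ⟨a, ha, b, Finset.mem_insert_of_mem hb, hbA, h⟩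
        · exact absurd (h.1 ▸ ha) h1
        · exact ⟨a, ha, v, Finset.mem_insert_self _ _, h2, h.2.symm⟩
  next hu =>
    refine hF.mono fun a ha b hb hab ↦ ?_
    exact (con_adj_of_ne (fun h : a = u ↦ hu (h ▸ ha)) (fun h : b = u ↦ hu (h ▸ hb))).1 hab

end H47G
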