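import Pool.Agent.Lib.H47G.Main

/-!
# The theorem on massed pairs: deletion, a vertex of small degree, its neighbourhood
-/

open Classical

namespace H47G

variable {V : Type} {G : SimpleGraph V} {m : ℕ} {X H : Finset V}

theorem del_bound (ih : IH V m H.card)
    (ih2 : ∀ G' : SimpleGraph V, (pairs G' (X ∪ H)).card < (pairs G (X ∪ H)).card →
      Massed m G' X H → Knit G' (X ∪ H) X)
    (hM : Massed m G X H) (hK : ¬ Knit G (X ∪ H) X) :
    (P G (X ∪ H) H).card ≤ 2 * m * H.card + 2 := by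
  by_contra hlt
  push Not at hlt
  set S := X ∪ H with hS
  have hHS : H ⊆ S := Finset.subset_union_right
  -- an edge inside `H`
  have hE : ∃ u ∈ H, ∃ v ∈ H, G.Adj u v := by
    by_contra hno
    push Not at hno
    have h1 : P G S H ⊆ (H ×ˢ X) ∪ (X ×ˢ H) := by
      rintro ⟨a, b⟩ hab
      obtain ⟨h1, h2, h3, h4⟩ := mem_P.1 hab
      simp only at h1 h2 h3 h4
      simp only [Finset.mem_union, Finset.mem_product]
      rcases h4 with h4 | h4
      · left
        refine ⟨h4, ?_⟩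
        rcases Finset.mem_union.1 h2 with h | h
        · exact h
        · exact absurd h3 (hno a h4 b h)
      · right
        refine ⟨?_, h4⟩
        rcases Finset.mem_union.1 h1 with h | h
        · exact h
        · exact absurd h3 (hno a h b h4)
    have h2 := (Finset.card_le_card h1).trans (Finset.card_union_le _ _)
    rw [Finset.card_product, Finset.card_product] at h2
    have h3 : H.card * X.card ≤ H.card * m := Nat.mul_le_mul_left _ hM.card
    have h4 : X.card * H.card = H.card * X.card := mul_comm _ _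
    have h5 : 2 * m * H.card = 2 * (H.card * m) := by ring
    omega
  obtain ⟨u, hu, v, hv, huv⟩ := hE
  have hmem : (u, v) ∈ pairs G S := mem_pairs.2 ⟨⟨hHS hu, hHS hv⟩, huv⟩
  have hdel : ∀ a b : V, (G.deleteEdges {s(u, v)}).Adj a b ↔
      G.Adj a b ∧ ¬ ((a = u ∧ b = v) ∨ (a = v ∧ b = u)) := by
    intro a b
    rw [SimpleGraph.deleteEdges_adj, Set.mem_singleton_iff, Sym2.eq_iff]
  have hM' : Massed m (G.deleteEdges {s(u, v)}) X H := by
    refine ⟨hM.disj, hM.card, ?_, fun W hW hW' ↦ ?_⟩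
    · have h1 : P G S H ⊆ P (G.deleteEdges {s(u, v)}) S H ∪ {(u, v), (v, u)} := by
        rintro ⟨a, b⟩ hab
        obtain ⟨h1, h2, h3, h4⟩ := mem_P.1 hab
        simp only at h1 h2 h3 h4
        by_cases h : (a = u ∧ b = v) ∨ (a = v ∧ b = u)
        · refine Finset.mem_union_right _ ?_
          simp only [Finset.mem_insert, Finset.mem_singleton, Prod.mk.injEq]
          exact h
        · exact Finset.mem_union_left _ (mem_P.2 ⟨h1, h2, (hdel a b).2 ⟨h3, h⟩, h4⟩)
      have h2 := (Finset.card_le_card h1).trans (Finset.card_union_le _ _)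
      have h3 : ({(u, v), (v, u)} : Finset (V × V)).card ≤ 2 := Finset.card_le_two
      rw [← hS]
      omega
    · rw [← hS] at hW' ⊢
      have h1 : P (G.deleteEdges {s(u, v)}) S W ⊆ P G S W := by
        rintro ⟨a, b⟩ hab
        obtain ⟨h1, h2, h3, h4⟩ := mem_P.1 hab
        exact mem_P.2 ⟨h1, h2, ((hdel a b).1 h3).1, h4⟩
      refine (Finset.card_le_card h1).trans ?_
      by_cases hlt' : (nb G S W).card < X.card
      · exact hM.m2 W hW hlt'
      · have hne : W ≠ H := by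
          rintro rfl
          apply hlt'
          refine (Finset.card_le_card ?_).trans_lt hW'
          intro y hy
          obtain ⟨h1, h2, w, hw, hwy⟩ := mem_nb.1 hy
          refine mem_nb.2 ⟨h1, h2, w, hw, (hdel w y).2 ⟨hwy, ?_⟩⟩
          rintro (h | h)
          · exact h2 (h.2 ▸ hv)
          · exact h2 (h.2 ▸ hu)
        refine noDense ih hM hK W hW hne ?_
        have h2 : nb G S W ⊆
            insert (if u ∈ W then v else u) (nb (G.deleteEdges {s(u, v)}) S W) := by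
          intro y hy
          obtain ⟨h1, h2, w, hw, hwy⟩ := mem_nb.1 hy
          by_cases h : (w = u ∧ y = v) ∨ (w = v ∧ y = u)
          · refine Finset.mem_insert.2 (Or.inl ?_)
            rcases h with ⟨rfl, rfl⟩ | ⟨rfl, rfl⟩
            · rw [if_pos hw]
            · rw [if_neg h2]
          · exact Finset.mem_insert_of_mem (mem_nb.2 ⟨h1, h2, w, hw, (hdel w y).2 ⟨hwy, h⟩⟩)
        have h3 := (Finset.card_le_card h2).trans (Finset.card_insert_le _ _)
        rw [← hS]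
        omega
  exact hK ((ih2 _ (pairs_deleteEdges_card_lt hmem) hM').mono fun a b h ↦ ((hdel a b).1 h).1)

theorem lowdeg (hM : Massed m G X H) (hle : (P G (X ∪ H) H).card ≤ 2 * m * H.card + 2) :
    ∃ v ∈ H, (nb G (X ∪ H) {v}).card ≤ 2 * m + 1 := by
  set S := X ∪ H with hS
  have hHS : H ⊆ S := Finset.subset_union_right
  have hne : H.Nonempty := by
    rw [Finset.nonempty_iff_ne_empty]
    rintro rfl
    have h1 := hM.m1
    have : P G (X ∪ ∅) ∅ = ∅ := by
      ext q
      simp [mem_P]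
    rw [this] at h1
    simp at h1
  by_contra hno
  push Not at hno
  -- count the pairs with first coordinate in `H`
  have h1 : (H.sigma fun v ↦ nb G S {v}).card ≤ (P G S H).card := by
    refine Finset.card_le_card_of_injOn (fun q ↦ (q.1, q.2)) ?_ ?_
    · rintro ⟨a, b⟩ hab
      have hab : (⟨a, b⟩ : (_ : V) × V) ∈ H.sigma fun v ↦ nb G S {v} := hab
      rw [Finset.mem_sigma] at hab
      obtain ⟨h1, h2⟩ := hab
      obtain ⟨h3, h4, w, hw, hwy⟩ := mem_nb.1 h2
      rw [Finset.mem_singleton] at hw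
      rw [hw] at hwy
      exact mem_P.2 ⟨hHS h1, h3, hwy, Or.inl h1⟩
    · rintro ⟨a, b⟩ _ ⟨a', b'⟩ _ heq
      simp only [Prod.mk.injEq] at heq
      obtain ⟨rfl, rfl⟩ := heq
      rfl
  rw [Finset.card_sigma] at h1
  have h2 : H.card * (2 * m + 2) ≤ ∑ v ∈ H, (nb G S {v}).card := by
    rw [← smul_eq_mul]
    exact Finset.card_nsmul_le_sum H _ _ fun v hv ↦ hno v hv
  have h3 : H.card * (2 * m + 2) = 2 * m * H.card + 2 * H.card := by ring
  have h4 : H.card = 1 := by
    have := Finset.card_pos.2 hne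
    omega
  obtain ⟨v, hv⟩ := Finset.card_eq_one.1 h4
  have h5 := hno v (by simp [hv])
  have h6 : nb G S {v} ⊆ X := by
    have := nb_self_subset (G := G) (X := X) (H := H)
    rw [← hS] at this
    rwa [← hv]
  have h7 := (Finset.card_le_card h6).trans hM.card
  omega

/-- The core: in the neighbourhood of a vertex of small degree. -/
theorem core {v : V} (hv : v ∈ H)
    (hD : (nb G (X ∪ H) {v}).card ≤ 2 * m + 1)
    (hc : ∀ u ∈ nb G (X ∪ H) {v}, m ≤ (Cm G X H u v).card) (R₁ R₂ : Finset V)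
    (h1 : R₁ ⊆ nb G (X ∪ H) {v}) (h2 : R₂ ⊆ nb G (X ∪ H) {v}) (h12 : Disjoint R₁ R₂)
    (hm : R₁.card + R₂.card ≤ m) (hX : X ∩ nb G (X ∪ H) {v} ⊆ R₁ ∪ R₂) :
    ∃ F₁ F₂ : Finset V, F₁ ⊆ {v} ∪ nb G (X ∪ H) {v} ∧ F₂ ⊆ {v} ∪ nb G (X ∪ H) {v} ∧
      Disjoint F₁ F₂ ∧ R₁ ⊆ F₁ ∧ R₂ ⊆ F₂ ∧ Conn G F₁ ∧ Conn G F₂ := by
  set S := X ∪ H with hS
  set N := nb G S {v} with hN
  have memN : ∀ y, y ∈ N ↔ y ∈ S ∧ G.Adj v y := by
    intro y
    rw [hN, mem_nb]
    simp only [Finset.mem_singleton, exists_eq_left]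
    exact ⟨fun h ↦ ⟨h.1, h.2.2⟩, fun h ↦ ⟨h.1, h.2.ne', h.2⟩⟩
  have hvN : v ∉ N := fun h ↦ ((memN v).1 h).2.ne rfl
  -- a star and a connected rest
  have star : ∀ R R' F : Finset V, R ⊆ N → F ⊆ N \ R → Conn G F →
      Disjoint (insert v R) F ∧ Conn G (insert v R) ∧ insert v R ⊆ {v} ∪ N ∧ F ⊆ {v} ∪ N := by
    intro R R' F hR hF hFc
    refine ⟨?_, conn_star fun r hr ↦ ((memN r).1 (hR hr)).2, ?_, ?_⟩
    · rw [Finset.disjoint_left]
      intro x hx hxF
      obtain ⟨a1, a2⟩ := Finset.mem_sdiff.1 (hF hxF)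
      rcases Finset.mem_insert.1 hx with rfl | h
      · exact hvN a1
      · exact a2 h
    · intro x hx
      rcases Finset.mem_insert.1 hx with rfl | h
      · exact Finset.mem_union_left _ (Finset.mem_singleton_self x)
      · exact Finset.mem_union_right _ (hR h)
    · exact fun x hx ↦ Finset.mem_union_right _ (Finset.mem_sdiff.1 (hF hx)).1
  have h2' : R₂ ⊆ N \ R₁ := fun x hx ↦
    Finset.mem_sdiff.2 ⟨h2 hx, fun h ↦ Finset.disjoint_left.1 h12 h hx⟩
  have h1' : R₁ ⊆ N \ R₂ := fun x hx ↦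
    Finset.mem_sdiff.2 ⟨h1 hx, fun h ↦ Finset.disjoint_left.1 h12 hx h⟩
  rcases conn_or_split G h2' with ⟨F, hF, hRF, hFc⟩ | ⟨K, hK1, hK2, hK3, hK4⟩
  · obtain ⟨a1, a2, a3, a4⟩ := star R₁ R₂ F h1 hF hFc
    exact ⟨insert v R₁, F, a3, a4, a1, Finset.subset_insert _ _, hRF, a2, hFc⟩
  rcases conn_or_split G h1' with ⟨F, hF, hRF, hFc⟩ | ⟨Q, hQ1, hQ2, hQ3, hQ4⟩
  · obtain ⟨a1, a2, a3, a4⟩ := star R₂ R₁ F h2 hF hFc
    exact ⟨F, insert v R₂, a4, a3, a1.symm, hRF, Finset.subset_insert _ _, hFc, a2⟩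
  exfalso
  -- the four cells
  let KK : Bool → Finset V := fun a ↦ if a then K else (N \ R₁) \ K
  let QQ : Bool → Finset V := fun b ↦ if b then Q else (N \ R₂) \ Q
  have KKsub : ∀ a, KK a ⊆ N \ R₁ := by
    intro a
    cases a
    · exact Finset.sdiff_subset
    · exact hK1
  have QQsub : ∀ a, QQ a ⊆ N \ R₂ := by
    intro a
    cases a
    · exact Finset.sdiff_subset
    · exact hQ1
  have KKdis : ∀ a, Disjoint (KK a) (KK (!a)) := by
    intro a
    cases a
    · exact Finset.sdiff_disjoint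
    · exact Finset.disjoint_sdiff
  have QQdis : ∀ a, Disjoint (QQ a) (QQ (!a)) := by
    intro a
    cases a
    · exact Finset.sdiff_disjoint
    · exact Finset.disjoint_sdiff
  have KKcov : ∀ x ∈ N \ R₁, ∃ a, x ∈ KK a := by
    intro x hx
    by_cases h : x ∈ K
    · exact ⟨true, h⟩
    · exact ⟨false, Finset.mem_sdiff.2 ⟨hx, h⟩⟩
  have QQcov : ∀ x ∈ N \ R₂, ∃ a, x ∈ QQ a := by
    intro x hx
    by_cases h : x ∈ Q
    · exact ⟨true, h⟩
    · exact ⟨false, Finset.mem_sdiff.2 ⟨hx, h⟩⟩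
  have KKcl : ∀ a, ∀ x ∈ KK a, ∀ y ∈ N \ R₁, G.Adj x y → y ∈ KK a := by
    intro a x hx y hy hxy
    by_contra hn
    cases a
    · have hx' := Finset.mem_sdiff.1 (show x ∈ (N \ R₁) \ K from hx)
      have hyK : y ∈ K := by
        by_contra h
        exact hn (show y ∈ (N \ R₁) \ K from Finset.mem_sdiff.2 ⟨hy, h⟩)
      exact hK4 y hyK x hx'.1 hx'.2 hxy.symm
    · exact hK4 x hx y hy hn hxy
  have QQcl : ∀ a, ∀ x ∈ QQ a, ∀ y ∈ N \ R₂, G.Adj x y → y ∈ QQ a := by
    intro a x hx y hy hxy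
    by_contra hn
    cases a
    · have hx' := Finset.mem_sdiff.1 (show x ∈ (N \ R₂) \ Q from hx)
      have hyQ : y ∈ Q := by
        by_contra h
        exact hn (show y ∈ (N \ R₂) \ Q from Finset.mem_sdiff.2 ⟨hy, h⟩)
      exact hQ4 y hyQ x hx'.1 hx'.2 hxy.symm
    · exact hQ4 x hx y hy hn hxy
  have KKR : ∀ a, (KK a ∩ R₂).Nonempty := by
    intro a
    cases a
    · exact hK3
    · exact hK2
  have QQR : ∀ a, (QQ a ∩ R₁).Nonempty := by
    intro a
    cases a
    · exact hQ3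
    · exact hQ2
  have hR12 : (R₁ ∪ R₂).card = R₁.card + R₂.card := Finset.card_union_of_disjoint h12
  -- every vertex of `R₁ ∪ R₂` has a neighbour outside
  have fA : ∀ r ∈ R₁ ∪ R₂, ∃ y ∈ N, y ∉ R₁ ∧ y ∉ R₂ ∧ G.Adj r y := by
    intro r hr
    have hrN : r ∈ N := by
      rcases Finset.mem_union.1 hr with h | h
      · exact h1 h
      · exact h2 h
    have hcr := hc r hrN
    have : ∃ y ∈ Cm G X H r v, y ∉ (R₁ ∪ R₂).erase r := by
      by_contra hno
      push Not at hno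
      have h3 := Finset.card_le_card hno
      have h4 : ((R₁ ∪ R₂).erase r).card + 1 = (R₁ ∪ R₂).card := Finset.card_erase_add_one hr
      omega
    obtain ⟨y, hy, hy'⟩ := this
    obtain ⟨y1, y2, y3, y4⟩ := mem_Cm.1 hy
    have hyN : y ∈ N := (memN y).2 ⟨y1, y2⟩
    have hyR : y ∉ R₁ ∪ R₂ := fun h ↦ hy' (Finset.mem_erase.2 ⟨y3, h⟩)
    have hyX : y ∉ X := fun h ↦ hyR (hX (Finset.mem_inter.2 ⟨h, hyN⟩))
    refine ⟨y, hyN, fun h ↦ hyR (Finset.mem_union_left _ h),
      fun h ↦ hyR (Finset.mem_union_right _ h), ?_⟩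
    rcases y4 with h | h
    · exact h
    · exact absurd h.2 hyX
  have rows : ∀ a, ∃ b, (KK a ∩ QQ b).Nonempty := by
    intro a
    obtain ⟨r, hr⟩ := KKR a
    obtain ⟨hr1, hr2⟩ := Finset.mem_inter.1 hr
    obtain ⟨y, y1, y2, y3, y4⟩ := fA r (Finset.mem_union_right _ hr2)
    have hyK := KKcl a r hr1 y (Finset.mem_sdiff.2 ⟨y1, y2⟩) y4
    obtain ⟨b, hb⟩ := QQcov y (Finset.mem_sdiff.2 ⟨y1, y3⟩)
    exact ⟨b, y, Finset.mem_inter.2 ⟨hyK, hb⟩⟩
  have cols : ∀ b, ∃ a, (KK a ∩ QQ b).Nonempty := by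
    intro b
    obtain ⟨r, hr⟩ := QQR b
    obtain ⟨hr1, hr2⟩ := Finset.mem_inter.1 hr
    obtain ⟨y, y1, y2, y3, y4⟩ := fA r (Finset.mem_union_left _ hr2)
    have hyQ := QQcl b r hr1 y (Finset.mem_sdiff.2 ⟨y1, y3⟩) y4
    obtain ⟨a, ha⟩ := KKcov y (Finset.mem_sdiff.2 ⟨y1, y2⟩)
    exact ⟨a, y, Finset.mem_inter.2 ⟨ha, hyQ⟩⟩
  have cell : ∀ a b, (KK a ∩ QQ b).Nonempty →
      m + 1 ≤ (KK a ∩ QQ b).card + (KK a ∩ R₂).card + (QQ b ∩ R₁).card := by
    rintro a b ⟨u, hu⟩
    obtain ⟨hu1, hu2⟩ := Finset.mem_inter.1 hu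
    obtain ⟨u1, u2⟩ := Finset.mem_sdiff.1 (KKsub a hu1)
    obtain ⟨-, u3⟩ := Finset.mem_sdiff.1 (QQsub b hu2)
    have huX : u ∉ X := by
      intro h
      rcases Finset.mem_union.1 (hX (Finset.mem_inter.2 ⟨h, u1⟩)) with h' | h'
      · exact u2 h'
      · exact u3 h'
    have hcu := hc u u1
    have hsub : Cm G X H u v ⊆ ((KK a ∩ QQ b).erase u ∪ (KK a ∩ R₂)) ∪ (QQ b ∩ R₁) := by
      intro y hy
      obtain ⟨y1, y2, y3, y4⟩ := mem_Cm.1 hy
      have hyN : y ∈ N := (memN y).2 ⟨y1, y2⟩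
      have huy : G.Adj u y := by
        rcases y4 with h | h
        · exact h
        · exact absurd h.1 huX
      by_cases hy1 : y ∈ R₁
      · have hy2 : y ∉ R₂ := Finset.disjoint_left.1 h12 hy1
        exact Finset.mem_union_right _ (Finset.mem_inter.2
          ⟨QQcl b u hu2 y (Finset.mem_sdiff.2 ⟨hyN, hy2⟩) huy, hy1⟩)
      · have hyK := KKcl a u hu1 y (Finset.mem_sdiff.2 ⟨hyN, hy1⟩) huy
        by_cases hy2 : y ∈ R₂
        · exact Finset.mem_union_left _ (Finset.mem_union_right _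
            (Finset.mem_inter.2 ⟨hyK, hy2⟩))
        · exact Finset.mem_union_left _ (Finset.mem_union_left _ (Finset.mem_erase.2 ⟨y3,
            Finset.mem_inter.2 ⟨hyK, QQcl b u hu2 y (Finset.mem_sdiff.2 ⟨hyN, hy2⟩) huy⟩⟩))
    have h3 := Finset.card_le_card hsub
    have h4 := Finset.card_union_le ((KK a ∩ QQ b).erase u ∪ (KK a ∩ R₂)) (QQ b ∩ R₁)
    have h5 := Finset.card_union_le ((KK a ∩ QQ b).erase u) (KK a ∩ R₂)
    have h6 : ((KK a ∩ QQ b).erase u).card + 1 = (KK a ∩ QQ b).card :=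
      Finset.card_erase_add_one hu
    omega
  have opp : ∀ a b, ¬ ((KK a ∩ QQ b).Nonempty ∧ (KK (!a) ∩ QQ (!b)).Nonempty) := by
    rintro a b ⟨c1, c2⟩
    have e1 := cell a b c1
    have e2 := cell (!a) (!b) c2
    -- the six sets are disjoint subsets of `N`
    have d1 : (KK a ∩ R₂).card + (KK (!a) ∩ R₂).card ≤ R₂.card := by
      rw [← Finset.card_union_of_disjoint
        ((KKdis a).mono Finset.inter_subset_left Finset.inter_subset_left)]
      exact Finset.card_le_card (Finset.union_subset Finset.inter_subset_right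
        Finset.inter_subset_right)
    have d2 : (QQ b ∩ R₁).card + (QQ (!b) ∩ R₁).card ≤ R₁.card := by
      rw [← Finset.card_union_of_disjoint
        ((QQdis b).mono Finset.inter_subset_left Finset.inter_subset_left)]
      exact Finset.card_le_card (Finset.union_subset Finset.inter_subset_right
        Finset.inter_subset_right)
    have sub : ∀ a b, KK a ∩ QQ b ⊆ N \ (R₁ ∪ R₂) := by
      intro a b x hx
      obtain ⟨x1, x2⟩ := Finset.mem_inter.1 hx
      obtain ⟨x3, x4⟩ := Finset.mem_sdiff.1 (KKsub a x1)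
      obtain ⟨-, x5⟩ := Finset.mem_sdiff.1 (QQsub b x2)
      refine Finset.mem_sdiff.2 ⟨x3, fun h ↦ ?_⟩
      rcases Finset.mem_union.1 h with h | h
      · exact x4 h
      · exact x5 h
    have d3 : (KK a ∩ QQ b).card + (KK (!a) ∩ QQ (!b)).card ≤ (N \ (R₁ ∪ R₂)).card := by
      rw [← Finset.card_union_of_disjoint
        ((KKdis a).mono Finset.inter_subset_left Finset.inter_subset_left)]
      exact Finset.card_le_card (Finset.union_subset (sub _ _) (sub _ _))
    have d4 : (N \ (R₁ ∪ R₂)).card + (R₁ ∪ R₂).card = N.card :=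
      Finset.card_sdiff_add_card_eq_card (Finset.union_subset h1 h2)
    omega
  obtain ⟨b₀, hb₀⟩ := rows true
  obtain ⟨b₁, hb₁⟩ := rows false
  have n1 : ¬ (KK false ∩ QQ (!b₀)).Nonempty := fun h ↦ opp true b₀ ⟨hb₀, h⟩
  have e1 : b₁ = b₀ := by
    by_contra hne
    have : b₁ = !b₀ := by
      cases b₀ <;> cases b₁ <;> simp_all
    exact n1 (this ▸ hb₁)
  subst e1
  have n2 : ¬ (KK true ∩ QQ (!b₁)).Nonempty := fun h ↦ opp false b₁ ⟨hb₁, h⟩
  obtain ⟨a, ha⟩ := cols (!b₁)
  cases a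
  · exact n1 ha
  · exact n2 ha

/-- **Massed pairs are linked.** -/
theorem massed_knit_aux (m n : ℕ) : ∀ (e : ℕ) (G : SimpleGraph V) (X H : Finset V),
    H.card ≤ n → (pairs G (X ∪ H)).card ≤ e → Massed m G X H → Knit G (X ∪ H) X := by
  induction n with
  | zero =>
    intro e G X H hn _ hM
    have hH : H = ∅ := Finset.card_eq_zero.1 (Nat.le_zero.1 hn)
    subst hH
    have h1 := hM.m1
    have : P G (X ∪ ∅) ∅ = ∅ := by
      ext q
      simp [mem_P]
    rw [this] at h1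
    simp at h1
  | succ n ihn =>
    intro e
    induction e with
    | zero =>
      intro G X H _ he hM
      have h1 := hM.m1
      have h2 : (P G (X ∪ H) H).card ≤ (pairs G (X ∪ H)).card :=
        Finset.card_le_card (Finset.filter_subset _ _)
      omega
    | succ e ihe =>
      intro G X H hn he hM
      by_contra hK
      have ih : IH V m H.card := fun G' X' H' hlt hM' ↦
        ihn _ G' X' H' (by omega) le_rfl hM'
      have ih2 : ∀ G' : SimpleGraph V, (pairs G' (X ∪ H)).card < (pairs G (X ∪ H)).card →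
          Massed m G' X H → Knit G' (X ∪ H) X := fun G' hlt hM' ↦
        ihe G' X H hn (by omega) hM'
      obtain ⟨v, hv, hdeg⟩ := lowdeg hM (del_bound ih ih2 hM hK)
      have hvX : v ∉ X := fun h ↦ Finset.disjoint_left.1 hM.disj h hv
      -- a set `W ∋ v` with as few neighbours as possible
      let T := H.powerset.filter fun W ↦ v ∈ W
      have hT : T.Nonempty := ⟨H, by simp [T, hv]⟩
      obtain ⟨W, hW', hmin⟩ := T.exists_min_image (fun W ↦ (nb G (X ∪ H) W).card) hT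
      obtain ⟨hW, hvW⟩ := by simpa only [T, Finset.mem_filter, Finset.mem_powerset] using hW'
      have hmin' : ∀ W₃ ⊆ H, v ∈ W₃ →
          (nb G (X ∪ H) W).card ≤ (nb G (X ∪ H) W₃).card := fun W₃ h1 h2 ↦
        hmin W₃ (by simp only [T, Finset.mem_filter, Finset.mem_powerset]; exact ⟨h1, h2⟩)
      have hWS : W ⊆ X ∪ H := hW.trans Finset.subset_union_right
      have hle : (nb G (X ∪ H) W).card ≤ X.card :=
        (hmin' H (Finset.Subset.refl _) hv).trans (Finset.card_le_card nb_self_subset)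
      have hsW : ({v} : Finset V) ⊆ W := Finset.singleton_subset_iff.2 hvW
      refine noRigid ih hM hK W hW ⟨v, hvW⟩ hle ?_
      rw [Finset.union_comm]
      refine transfer nb_disjoint hsW (fun W₃ h1 h2 ↦ ?_) (fun R₁ R₂ h1 h2 h3 h4 h5 ↦ ?_)
      · rw [nb_restrict hWS h1]
        exact hmin' W₃ (h1.trans hW) (Finset.singleton_subset_iff.1 h2)
      · rw [nb_restrict hWS hsW] at h1 h2 h5 ⊢
        refine core hv hdeg (fun u hu ↦ ?_) R₁ R₂ h1 h2 h3 ?_ ?_
        · obtain ⟨u1, -, w, hw, hwu⟩ := mem_nb.1 hu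
          rw [Finset.mem_singleton] at hw
          subst hw
          exact common ih hM hK u1 hv hwu.symm
        · rw [h4]
          exact hle.trans hM.card
        · intro y hy
          obtain ⟨y1, y2⟩ := Finset.mem_inter.1 hy
          refine h5 (Finset.mem_inter.2 ⟨?_, y2⟩)
          obtain ⟨y3, -, w, hw, hwy⟩ := mem_nb.1 y2
          rw [Finset.mem_singleton] at hw
          subst hw
          refine mem_nb.2 ⟨y3, fun h ↦ ?_, w, hvW, hwy⟩
          exact Finset.disjoint_left.1 hM.disj y1 (hW h)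

theorem massed_knit (hM : Massed m G X H) : Knit G (X ∪ H) X :=
  massed_knit_aux m H.card _ G X H le_rfl le_rfl hM

end H47G
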