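import Pool.Agent.Lib.H47G.Massed

/-!
# Massed pairs are linked
-/

open Classical

namespace H47G

variable {V : Type} {G : SimpleGraph V} {m : ℕ} {X H : Finset V}

/-- The induction hypothesis. -/
def IH (V : Type) (m n : ℕ) : Prop :=
  ∀ (G : SimpleGraph V) (X H : Finset V), H.card < n → Massed m G X H → Knit G (X ∪ H) X

theorem union_sdiff_eq {X H W : Finset V} (hd : Disjoint X H) (hW : W ⊆ H) :
    X ∪ (H \ W) = (X ∪ H) \ W := by
  ext x
  simp only [Finset.mem_union, Finset.mem_sdiff]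
  constructor
  · rintro (h | h)
    · exact ⟨Or.inl h, fun h' ↦ Finset.disjoint_left.1 hd h (hW h')⟩
    · exact ⟨Or.inr h.1, h.2⟩
  · rintro ⟨h | h, h'⟩
    · exact Or.inl h
    · exact Or.inr ⟨h, h'⟩

/-- There is no rigid set with fewer than `|X|` neighbours. -/
theorem step1 (ih : IH V m H.card) (hM : Massed m G X H) (hK : ¬ Knit G (X ∪ H) X) :
    ∀ W ⊆ H, W.Nonempty → (nb G (X ∪ H) W).card < X.card →
      ¬ Knit G (W ∪ nb G (X ∪ H) W) (nb G (X ∪ H) W) := by
  set S := X ∪ H with hS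
  intro W₀ hW₀ hne₀ hlt₀ hr₀
  let T := H.powerset.filter fun W ↦ W.Nonempty ∧ (nb G S W).card < X.card ∧
    Knit G (W ∪ nb G S W) (nb G S W)
  have hT : T.Nonempty := ⟨W₀, by
    simp only [T, Finset.mem_filter, Finset.mem_powerset]
    exact ⟨hW₀, hne₀, hlt₀, hr₀⟩⟩
  obtain ⟨W, hW', hmax⟩ := T.exists_max_image Finset.card hT
  obtain ⟨hW, hne, hlt, hr⟩ := by
    simpa only [T, Finset.mem_filter, Finset.mem_powerset] using hW'
  set N := nb G S W with hN
  have hS' : X ∪ (H \ W) = S \ W := union_sdiff_eq hM.disj hW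
  have hWH : (H \ W).card + W.card = H.card := Finset.card_sdiff_add_card_eq_card hW
  have hWpos : 0 < W.card := Finset.card_pos.2 hne
  have hNT : N ⊆ X ∪ (H \ W) := by
    intro y hy
    rw [hS']
    obtain ⟨h1, h2, -⟩ := mem_nb.1 hy
    exact Finset.mem_sdiff.2 ⟨h1, h2⟩
  have hWS' : Disjoint W (X ∪ (H \ W)) := by
    rw [hS']
    exact Finset.disjoint_sdiff
  by_cases hc : ∀ W' ⊆ H \ W, (nb (cliq G N) (X ∪ (H \ W)) W').card < X.card →
      (P (cliq G N) (X ∪ (H \ W)) W').card ≤ 2 * m * W'.card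
  · have hM' : Massed m (cliq G N) X (H \ W) := by
      refine ⟨hM.disj.mono_right Finset.sdiff_subset, hM.card, ?_, hc⟩
      have h1 : (P G S H).card ≤ (P G S W).card + (P (cliq G N) (X ∪ (H \ W)) (H \ W)).card := by
        refine (Finset.card_le_card ?_).trans (Finset.card_union_le _ _)
        rintro ⟨a, b⟩ hab
        obtain ⟨h1, h2, h3, h4⟩ := mem_P.1 hab
        simp only at h1 h2 h3 h4
        by_cases haW : a ∈ W
        · exact Finset.mem_union_left _ (mem_P.2 ⟨h1, h2, h3, Or.inl haW⟩)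
        by_cases hbW : b ∈ W
        · exact Finset.mem_union_left _ (mem_P.2 ⟨h1, h2, h3, Or.inr hbW⟩)
        refine Finset.mem_union_right _ (mem_P.2 ⟨?_, ?_, ⟨h3.ne, Or.inl h3⟩, ?_⟩)
        · rw [hS']
          exact Finset.mem_sdiff.2 ⟨h1, haW⟩
        · rw [hS']
          exact Finset.mem_sdiff.2 ⟨h2, hbW⟩
        · rcases h4 with h4 | h4
          · exact Or.inl (Finset.mem_sdiff.2 ⟨h4, haW⟩)
          · exact Or.inr (Finset.mem_sdiff.2 ⟨h4, hbW⟩)
      have h2 := hM.m1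
      have h3 := hM.m2 W hW hlt
      have h4 : 2 * m * H.card = 2 * m * (H \ W).card + 2 * m * W.card := by
        rw [← hWH, mul_add]
      rw [← hS] at h2 h3
      omega
    have h1 := ih (cliq G N) X (H \ W) (by omega) hM'
    have h2 := knit_replace hr hNT hWS' h1
    rw [Finset.union_assoc, Finset.sdiff_union_of_subset hW] at h2
    exact hK h2
  · push Not at hc
    obtain ⟨W', hW'H, hlt', hbig, hM'⟩ := massed_of_violation hM.card hc
    set N' := nb (cliq G N) (X ∪ (H \ W)) W' with hN'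
    have hcard' : W'.card ≤ (H \ W).card := Finset.card_le_card hW'H
    have hk := ih _ _ _ (by omega) hM'
    have hW'W : ∀ x ∈ W', x ∉ W := fun x hx ↦ (Finset.mem_sdiff.1 (hW'H hx)).2
    have hW'S : W' ⊆ H := hW'H.trans Finset.sdiff_subset
    by_cases hd : Disjoint W' N
    · have hA : nb G S W' ⊆ N' := by
        intro y hy
        obtain ⟨h1, h2, w, hw, hwy⟩ := mem_nb.1 hy
        have hyW : y ∉ W := by
          intro hyW
          refine Finset.disjoint_left.1 hd hw (mem_nb.2 ⟨?_, hW'W w hw, y, hyW, hwy.symm⟩)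
          exact Finset.mem_union_right _ (hW'S hw)
        refine mem_nb.2 ⟨?_, h2, w, hw, hwy.ne, Or.inl hwy⟩
        rw [hS']
        exact Finset.mem_sdiff.2 ⟨h1, hyW⟩
      have hB : P (cliq G N) (X ∪ (H \ W)) W' ⊆ P G S W' := by
        rintro ⟨a, b⟩ hab
        obtain ⟨h1, h2, h3, h4⟩ := mem_P.1 hab
        simp only at h1 h2 h3 h4
        rw [hS'] at h1 h2
        refine mem_P.2 ⟨(Finset.mem_sdiff.1 h1).1, (Finset.mem_sdiff.1 h2).1, ?_, h4⟩
        rcases h3.2 with h5 | ⟨h5, h6⟩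
        · exact h5
        · rcases h4 with h4 | h4
          · exact absurd h5 (Finset.disjoint_left.1 hd h4)
          · exact absurd h6 (Finset.disjoint_left.1 hd h4)
      have h1 := hM.m2 W' hW'S ((Finset.card_le_card hA).trans_lt hlt')
      have h2 := Finset.card_le_card hB
      rw [← hS] at h1
      omega
    · obtain ⟨z, hz, hzN⟩ := Finset.not_disjoint_iff.1 hd
      have hnb : nb G S (W ∪ W') = N' := by
        ext y
        simp only [hN', mem_nb, hS', Finset.mem_sdiff, Finset.mem_union, not_or]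
        constructor
        · rintro ⟨h1, ⟨h2, h3⟩, w, hw, hwy⟩
          refine ⟨⟨h1, h2⟩, h3, ?_⟩
          rcases hw with hw | hw
          · exact ⟨z, hz, fun e ↦ h3 (e ▸ hz), Or.inr ⟨hzN, mem_nb.2 ⟨h1, h2, w, hw, hwy⟩⟩⟩
          · exact ⟨w, hw, hwy.ne, Or.inl hwy⟩
        · rintro ⟨⟨h1, h2⟩, h3, w, hw, hwy⟩
          refine ⟨h1, ⟨h2, h3⟩, ?_⟩
          rcases hwy.2 with h | h
          · exact ⟨w, Or.inr hw, h⟩
          · obtain ⟨-, -, w', hw', hw'y⟩ := mem_nb.1 h.2
            exact ⟨w', Or.inl hw', hw'y⟩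
      have hNT' : N ⊆ N' ∪ W' := by
        intro y hy
        by_cases hyW' : y ∈ W'
        · exact Finset.mem_union_right _ hyW'
        · exact Finset.mem_union_left _ (mem_nb.2 ⟨hNT hy, hyW', z, hz,
            fun e ↦ hyW' (e ▸ hz), Or.inr ⟨hzN, hy⟩⟩)
      have hWT : Disjoint W (N' ∪ W') := by
        rw [Finset.disjoint_union_right]
        refine ⟨?_, Finset.disjoint_left.2 fun x hx hx' ↦ hW'W x hx' hx⟩
        exact hWS'.mono_right nb_subset
      have h1 := knit_replace hr hNT' hWT hk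
      have h2 : N' ∪ W' ∪ W = (W ∪ W') ∪ N' := by
        ext x
        simp only [Finset.mem_union]
        tauto
      rw [h2] at h1
      have hmem : W ∪ W' ∈ T := by
        simp only [T, Finset.mem_filter, Finset.mem_powerset]
        refine ⟨Finset.union_subset hW hW'S, hne.mono Finset.subset_union_left, ?_, ?_⟩
        · rw [hnb]
          exact hlt'
        · rw [hnb]
          exact h1
      have h3 := hmax _ hmem
      have h4 : (W ∪ W').card = W.card + W'.card :=
        Finset.card_union_of_disjoint (Finset.disjoint_left.2 fun x hx hx' ↦ hW'W x hx' hx)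
      have h5 : 0 < W'.card := Finset.card_pos.2 ⟨z, hz⟩
      omega

/-- A rigid set is a core. -/
theorem core_of_rigid {S C : Finset V} (hr : Knit G (C ∪ nb G S C) (nb G S C)) (R₁ R₂ : Finset V)
    (h1 : R₁ ⊆ nb G S C) (h2 : R₂ ⊆ nb G S C) (hd : Disjoint R₁ R₂) :
    ∃ F₁ F₂ : Finset V, F₁ ⊆ C ∪ nb G S C ∧ F₂ ⊆ C ∪ nb G S C ∧ Disjoint F₁ F₂ ∧
      R₁ ⊆ F₁ ∧ R₂ ⊆ F₂ ∧ Conn G F₁ ∧ Conn G F₂ := by
  obtain ⟨F₁, F₂, a1, a2, a3, a4, a5, a6, a7⟩ := hr R₁ h1
  refine ⟨F₁, F₂, a1, a2, a3, a4, fun x hx ↦ a5 (Finset.mem_sdiff.2 ⟨h2 hx, fun h ↦ ?_⟩), a6, a7⟩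
  exact Finset.disjoint_left.1 hd h hx

/-- There is no rigid set with at most `|X|` neighbours. -/
theorem noRigid (ih : IH V m H.card) (hM : Massed m G X H) (hK : ¬ Knit G (X ∪ H) X) :
    ∀ W ⊆ H, W.Nonempty → (nb G (X ∪ H) W).card ≤ X.card →
      ¬ Knit G (W ∪ nb G (X ∪ H) W) (nb G (X ∪ H) W) := by
  set S := X ∪ H with hS
  intro W hW hne _ hr
  let T := H.powerset.filter fun W' ↦ W ⊆ W'
  have hT : T.Nonempty := ⟨W, by simp [T, hW]⟩
  obtain ⟨W₂, hW₂', hmin⟩ := T.exists_min_image (fun W' ↦ (nb G S W').card) hT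
  obtain ⟨hW₂, hWW₂⟩ := by simpa only [T, Finset.mem_filter, Finset.mem_powerset] using hW₂'
  have hmin' : ∀ W₃ ⊆ H, W ⊆ W₃ → (nb G S W₂).card ≤ (nb G S W₃).card := fun W₃ h1 h2 ↦
    hmin W₃ (by simp only [T, Finset.mem_filter, Finset.mem_powerset]; exact ⟨h1, h2⟩)
  have hW₂S : W₂ ⊆ S := hW₂.trans Finset.subset_union_right
  have r2 : Knit G (nb G S W₂ ∪ W₂) (nb G S W₂) := by
    refine transfer nb_disjoint hWW₂ (fun W₃ h1 h2 ↦ ?_) (fun R₁ R₂ h1 h2 h3 _ _ ↦ ?_)
    · rw [nb_restrict hW₂S h1]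
      exact hmin' W₃ (h1.trans hW₂) h2
    · rw [nb_restrict hW₂S hWW₂] at h1 h2 ⊢
      exact core_of_rigid hr R₁ R₂ h1 h2 h3
  rw [Finset.union_comm] at r2
  by_cases hlt : (nb G S W₂).card < X.card
  · exact step1 ih hM hK W₂ hW₂ (hne.mono hWW₂) hlt r2
  · refine hK (transfer hM.disj hW (fun W₃ h1 h2 ↦ ?_) (fun R₁ R₂ h1 h2 h3 _ _ ↦ ?_))
    · have := hmin' W₃ h1 h2
      rw [← hS]
      omega
    · exact core_of_rigid hr R₁ R₂ h1 h2 h3

theorem noDense (ih : IH V m H.card) (hM : Massed m G X H) (hK : ¬ Knit G (X ∪ H) X) :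
    ∀ W ⊆ H, W ≠ H → (nb G (X ∪ H) W).card ≤ X.card →
      (P G (X ∪ H) W).card ≤ 2 * m * W.card := by
  intro W hW hne hle
  rcases hle.lt_or_eq with h | h
  · exact hM.m2 W hW h
  by_contra hc
  push Not at hc
  have hWS : W ⊆ X ∪ H := hW.trans Finset.subset_union_right
  have hcard : W.card < H.card :=
    Finset.card_lt_card (Finset.ssubset_iff_subset_ne.2 ⟨hW, hne⟩)
  have hM' : Massed m G (nb G (X ∪ H) W) W := by
    refine ⟨nb_disjoint, hle.trans hM.card, ?_, fun W' hW' hlt ↦ ?_⟩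
    · rw [P_restrict hWS (Finset.Subset.refl _)]
      exact hc
    · rw [nb_restrict hWS hW', h] at hlt
      rw [P_restrict hWS hW']
      exact hM.m2 W' (hW'.trans hW) hlt
  have hk := ih _ _ _ hcard hM'
  rw [Finset.union_comm] at hk
  refine noRigid ih hM hK W hW ?_ hle hk
  rw [Finset.nonempty_iff_ne_empty]
  rintro rfl
  have : P G (X ∪ H) ∅ = ∅ := by
    ext q
    simp [mem_P]
  simp [this] at hc

/-- The common neighbours of `u` and `v` (with the roots considered as pairwise adjacent). -/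
noncomputable def Cm (G : SimpleGraph V) (X H : Finset V) (u v : V) : Finset V :=
  (X ∪ H).filter fun y ↦ G.Adj v y ∧ y ≠ u ∧ (G.Adj u y ∨ (u ∈ X ∧ y ∈ X))

theorem mem_Cm {u v y : V} : y ∈ Cm G X H u v ↔
    y ∈ X ∪ H ∧ G.Adj v y ∧ y ≠ u ∧ (G.Adj u y ∨ (u ∈ X ∧ y ∈ X)) := by
  rw [Cm, Finset.mem_filter]

theorem count {u v : V} (hu : u ∈ X ∪ H) (hv : v ∈ H) (huv : G.Adj u v) :
    (P G (X ∪ H) H).card ≤
      (P (con G u v) ((X ∪ H).erase v) (H.erase v)).card + 2 + 2 * (Cm G X H u v).card := by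
  set S := X ∪ H with hS
  have hvS : v ∈ S := Finset.mem_union_right _ hv
  set D := S.filter fun y ↦ G.Adj v y with hD
  set C := Cm G X H u v with hC
  set D' := D \ insert u C with hD'
  have huC : u ∉ C := fun h ↦ (mem_Cm.1 h).2.2.1 rfl
  have hsub : insert u C ⊆ D := by
    refine Finset.insert_subset ?_ fun y hy ↦ ?_
    · exact Finset.mem_filter.2 ⟨hu, huv.symm⟩
    · exact Finset.mem_filter.2 ⟨(mem_Cm.1 hy).1, (mem_Cm.1 hy).2.1⟩
  have hDcard : D'.card + (C.card + 1) = D.card := by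
    rw [← Finset.card_insert_of_notMem huC]
    exact Finset.card_sdiff_add_card_eq_card hsub
  set A := (P G S H).filter fun q ↦ q.1 ≠ v ∧ q.2 ≠ v with hA
  have h1 : (P G S H).card ≤ A.card + (D.card + D.card) := by
    have : P G S H ⊆ A ∪ (({v} ×ˢ D) ∪ (D ×ˢ {v})) := by
      rintro ⟨a, b⟩ hab
      obtain ⟨h1, h2, h3, h4⟩ := mem_P.1 hab
      simp only at h1 h2 h3 h4
      by_cases hav : a = v
      · subst hav
        refine Finset.mem_union_right _ (Finset.mem_union_left _ ?_)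
        simp [hD, h2, h3]
      by_cases hbv : b = v
      · subst hbv
        refine Finset.mem_union_right _ (Finset.mem_union_right _ ?_)
        simp [hD, h1, h3.symm]
      · exact Finset.mem_union_left _ (Finset.mem_filter.2 ⟨hab, hav, hbv⟩)
    refine (Finset.card_le_card this).trans ((Finset.card_union_le _ _).trans ?_)
    refine Nat.add_le_add_left ((Finset.card_union_le _ _).trans ?_) _
    rw [Finset.card_product, Finset.card_product, Finset.card_singleton, one_mul, mul_one]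
  have memD' : ∀ y, y ∈ D' ↔ y ∈ S ∧ G.Adj v y ∧ y ≠ u ∧ ¬ G.Adj u y ∧ ¬ (u ∈ X ∧ y ∈ X) := by
    intro y
    simp only [hD', hD, Finset.mem_sdiff, Finset.mem_filter, Finset.mem_insert, hC, mem_Cm, not_or]
    constructor
    · rintro ⟨⟨h1, h2⟩, h3, h4⟩
      refine ⟨h1, h2, h3, fun h ↦ h4 ⟨h1, h2, h3, Or.inl h⟩, fun h ↦ h4 ⟨h1, h2, h3, Or.inr h⟩⟩
    · rintro ⟨h1, h2, h3, h4, h5⟩
      refine ⟨⟨h1, h2⟩, h3, fun h ↦ ?_⟩
      rcases h.2.2.2 with h | h
      · exact h4 h
      · exact h5 h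
  have h2 : A.card + (D'.card + D'.card) ≤ (P (con G u v) (S.erase v) (H.erase v)).card := by
    have hd1 : Disjoint (({u} : Finset V) ×ˢ D') (D' ×ˢ ({u} : Finset V)) := by
      rw [Finset.disjoint_left]
      rintro ⟨a, b⟩ hab hab'
      simp only [Finset.mem_product, Finset.mem_singleton] at hab hab'
      exact ((memD' b).1 hab.2).2.2.1 hab'.2
    have hd2 : Disjoint A ((({u} : Finset V) ×ˢ D') ∪ (D' ×ˢ ({u} : Finset V))) := by
      rw [Finset.disjoint_left]
      rintro ⟨a, b⟩ hab hab'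
      have hadj : G.Adj a b := (mem_P.1 (Finset.mem_filter.1 hab).1).2.2.1
      simp only [Finset.mem_union, Finset.mem_product, Finset.mem_singleton] at hab'
      rcases hab' with ⟨rfl, h⟩ | ⟨h, rfl⟩
      · exact ((memD' b).1 h).2.2.2.1 hadj
      · exact ((memD' a).1 h).2.2.2.1 hadj.symm
    have hcard : (A ∪ ((({u} : Finset V) ×ˢ D') ∪ (D' ×ˢ ({u} : Finset V)))).card =
        A.card + (D'.card + D'.card) := by
      rw [Finset.card_union_of_disjoint hd2, Finset.card_union_of_disjoint hd1,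
        Finset.card_product, Finset.card_product, Finset.card_singleton, one_mul, mul_one]
    rw [← hcard]
    refine Finset.card_le_card ?_
    have huv' : u ≠ v := huv.ne
    have hside : ∀ y, y ∈ D' → u ∈ H.erase v ∨ y ∈ H.erase v := by
      intro y hy
      obtain ⟨y1, y2, y3, y4, y5⟩ := (memD' y).1 hy
      rcases Finset.mem_union.1 hu with h | h
      · rcases Finset.mem_union.1 y1 with h' | h'
        · exact absurd ⟨h, h'⟩ y5
        · exact Or.inr (Finset.mem_erase.2 ⟨y2.ne', h'⟩)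
      · exact Or.inl (Finset.mem_erase.2 ⟨huv', h⟩)
    rintro ⟨a, b⟩ hab
    rcases Finset.mem_union.1 hab with h | h
    · obtain ⟨h1, h2, h3⟩ := Finset.mem_filter.1 h
      obtain ⟨h4, h5, h6, h7⟩ := mem_P.1 h1
      simp only at h2 h3 h4 h5 h6 h7
      refine mem_P.2 ⟨Finset.mem_erase.2 ⟨h2, h4⟩, Finset.mem_erase.2 ⟨h3, h5⟩, le_con h6, ?_⟩
      rcases h7 with h7 | h7
      · exact Or.inl (Finset.mem_erase.2 ⟨h2, h7⟩)
      · exact Or.inr (Finset.mem_erase.2 ⟨h3, h7⟩)
    · simp only [Finset.mem_union, Finset.mem_product, Finset.mem_singleton] at h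
      rcases h with ⟨rfl, h⟩ | ⟨h, rfl⟩
      · obtain ⟨y1, y2, y3, y4, y5⟩ := (memD' b).1 h
        exact mem_P.2 ⟨Finset.mem_erase.2 ⟨huv', hu⟩, Finset.mem_erase.2 ⟨y2.ne', y1⟩,
          ⟨y3.symm, Or.inr (Or.inl ⟨rfl, y2⟩)⟩, hside b h⟩
      · obtain ⟨y1, y2, y3, y4, y5⟩ := (memD' a).1 h
        exact mem_P.2 ⟨Finset.mem_erase.2 ⟨y2.ne', y1⟩, Finset.mem_erase.2 ⟨huv', hu⟩,
          ⟨y3, Or.inr (Or.inr ⟨rfl, y2⟩)⟩, (hside a h).symm⟩
  omega

theorem P_con_le {S W : Finset V} {u v : V} (hv : v ∈ S) (hu : u ∉ W) :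
    (P (con G u v) (S.erase v) W).card ≤ (P G S W).card := by
  let φ : V × V → V × V := fun q ↦ if G.Adj q.1 q.2 then q else
    if q.1 = u then (v, q.2) else (q.1, v)
  have key : ∀ a b : V, (a, b) ∈ P (con G u v) (S.erase v) W → ¬ G.Adj a b →
      (a = u ∧ G.Adj v b) ∨ (a ≠ u ∧ b = u ∧ G.Adj v a) := by
    intro a b hab hn
    obtain ⟨h1, h2, h3, h4⟩ := mem_P.1 hab
    rcases h3.2 with h | h | h
    · exact absurd h hn
    · exact Or.inl h
    · exact Or.inr ⟨fun e ↦ h3.1 (e.trans h.1.symm), h⟩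
  refine Finset.card_le_card_of_injOn φ ?_ ?_
  · rintro ⟨a, b⟩ hab
    have hab : (a, b) ∈ P (con G u v) (S.erase v) W := hab
    obtain ⟨h1, h2, h3, h4⟩ := mem_P.1 hab
    simp only at h1 h2 h3 h4
    have h1' := Finset.mem_of_mem_erase h1
    have h2' := Finset.mem_of_mem_erase h2
    change φ (a, b) ∈ P G S W
    by_cases hG : G.Adj a b
    · have : φ (a, b) = (a, b) := by simp [φ, hG]
      rw [this]
      exact mem_P.2 ⟨h1', h2', hG, h4⟩
    · rcases key a b hab hG with ⟨rfl, h⟩ | ⟨hne, rfl, h⟩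
      · have : φ (a, b) = (v, b) := by simp [φ, hG]
        rw [this]
        refine mem_P.2 ⟨hv, h2', h, Or.inr ?_⟩
        rcases h4 with h4 | h4
        · exact absurd h4 hu
        · exact h4
      · have : φ (a, b) = (a, v) := by simp [φ, hG, hne]
        rw [this]
        refine mem_P.2 ⟨h1', hv, h.symm, Or.inl ?_⟩
        rcases h4 with h4 | h4
        · exact h4
        · exact absurd h4 hu
  · rintro ⟨a, b⟩ hab ⟨a', b'⟩ hab' heq
    have hab : (a, b) ∈ P (con G u v) (S.erase v) W := hab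
    have hab' : (a', b') ∈ P (con G u v) (S.erase v) W := hab'
    have ne1 : a ≠ v := (Finset.mem_erase.1 (mem_P.1 hab).1).1
    have ne2 : b ≠ v := (Finset.mem_erase.1 (mem_P.1 hab).2.1).1
    have ne1' : a' ≠ v := (Finset.mem_erase.1 (mem_P.1 hab').1).1
    have ne2' : b' ≠ v := (Finset.mem_erase.1 (mem_P.1 hab').2.1).1
    by_cases hG : G.Adj a b <;> by_cases hG' : G.Adj a' b'
    · simpa [φ, hG, hG'] using heq
    · rcases key a' b' hab' hG' with ⟨rfl, h⟩ | ⟨hne, rfl, h⟩
      · simp [φ, hG, hG'] at heq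
        exact absurd heq.1 ne1
      · simp [φ, hG, hG', hne] at heq
        exact absurd heq.2 ne2
    · rcases key a b hab hG with ⟨rfl, h⟩ | ⟨hne, rfl, h⟩
      · simp [φ, hG, hG'] at heq
        exact absurd heq.1.symm ne1'
      · simp [φ, hG, hG', hne] at heq
        exact absurd heq.2.symm ne2'
    · rcases key a b hab hG with ⟨rfl, h⟩ | ⟨hne, rfl, h⟩ <;>
        rcases key a' b' hab' hG' with ⟨rfl, h'⟩ | ⟨hne', rfl, h'⟩
      · simp [φ, hG, hG'] at heq
        simp [heq]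
      · simp [φ, hG, hG', hne'] at heq
        exact absurd heq.1.symm ne1'
      · simp [φ, hG, hG', hne] at heq
        exact absurd heq.1 ne1
      · simp [φ, hG, hG', hne, hne'] at heq
        simp [heq]

theorem common (ih : IH V m H.card) (hM : Massed m G X H) (hK : ¬ Knit G (X ∪ H) X) {u v : V}
    (hu : u ∈ X ∪ H) (hv : v ∈ H) (huv : G.Adj u v) : m ≤ (Cm G X H u v).card := by
  by_contra hlt
  push Not at hlt
  have hvX : v ∉ X := fun h ↦ Finset.disjoint_left.1 hM.disj h hv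
  have hS1 : X ∪ H.erase v = (X ∪ H).erase v := by
    ext x
    simp only [Finset.mem_union, Finset.mem_erase]
    constructor
    · rintro (h | h)
      · exact ⟨fun e ↦ hvX (e ▸ h), Or.inl h⟩
      · exact ⟨h.1, Or.inr h.2⟩
    · rintro ⟨h1, h2 | h2⟩
      · exact Or.inl h2
      · exact Or.inr ⟨h1, h2⟩
  have hvS : v ∈ X ∪ H := Finset.mem_union_right _ hv
  have hHc : (H.erase v).card + 1 = H.card := Finset.card_erase_add_one hv
  by_cases hc : ∀ W' ⊆ H.erase v, (nb (con G u v) (X ∪ H.erase v) W').card < X.card →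
      (P (con G u v) (X ∪ H.erase v) W').card ≤ 2 * m * W'.card
  · have hM' : Massed m (con G u v) X (H.erase v) := by
      refine ⟨hM.disj.mono_right (Finset.erase_subset _ _), hM.card, ?_, hc⟩
      have h1 := count (G := G) hu hv huv
      have h2 := hM.m1
      have h3 : 2 * m * H.card = 2 * m * (H.erase v).card + 2 * m := by
        rw [← hHc, mul_add, mul_one]
      rw [hS1]
      omega
    have h1 := ih _ _ _ (by omega) hM'
    have h2 := knit_lift huv (by rw [hS1]; exact Finset.notMem_erase _ _) h1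
    rw [hS1, Finset.insert_erase hvS] at h2
    exact hK h2
  · push Not at hc
    obtain ⟨W', hW'H, hlt', hbig, hM'⟩ := massed_of_violation hM.card hc
    have hW'S : W' ⊆ H := hW'H.trans (Finset.erase_subset _ _)
    have hvW' : v ∉ W' := fun h ↦ Finset.notMem_erase v H (hW'H h)
    have hcard' : W'.card ≤ (H.erase v).card := Finset.card_le_card hW'H
    rw [hS1] at hlt' hbig hM'
    by_cases huW : u ∈ W'
    · have hk := ih _ _ _ (by omega) hM'
      have hk' := knit_lift huv (by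
        rw [Finset.mem_union, not_or]
        exact ⟨fun h ↦ Finset.notMem_erase v (X ∪ H) (nb_subset h), hvW'⟩) hk
      have hnb : nb G (X ∪ H) (insert v W') = nb (con G u v) ((X ∪ H).erase v) W' := by
        ext y
        simp only [mem_nb, Finset.mem_erase, Finset.mem_insert, not_or]
        constructor
        · rintro ⟨h1, ⟨h2, h3⟩, w, hw, hwy⟩
          refine ⟨⟨h2, h1⟩, h3, ?_⟩
          rcases hw with rfl | hw
          · exact ⟨u, huW, fun e ↦ h3 (e ▸ huW), Or.inr (Or.inl ⟨rfl, hwy⟩)⟩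
          · exact ⟨w, hw, le_con hwy⟩
        · rintro ⟨⟨h2, h1⟩, h3, w, hw, hwy⟩
          refine ⟨h1, ⟨h2, h3⟩, ?_⟩
          rcases hwy.2 with h | h | h
          · exact ⟨w, Or.inr hw, h⟩
          · exact ⟨v, Or.inl rfl, h.2⟩
          · exact absurd (h.1 ▸ huW) h3
      have hW'' : insert v W' ⊆ H := Finset.insert_subset hv hW'S
      refine step1 ih hM hK (insert v W') hW'' ⟨v, Finset.mem_insert_self _ _⟩ ?_ ?_
      · rw [hnb]
        exact hlt'
      · rw [hnb, Finset.union_comm, Finset.union_insert]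
        exact hk'
    · have h1 : nb G (X ∪ H) W' ⊆ insert v (nb (con G u v) ((X ∪ H).erase v) W') := by
        intro y hy
        obtain ⟨h1, h2, w, hw, hwy⟩ := mem_nb.1 hy
        by_cases hyv : y = v
        · exact Finset.mem_insert.2 (Or.inl hyv)
        · exact Finset.mem_insert_of_mem (mem_nb.2 ⟨Finset.mem_erase.2 ⟨hyv, h1⟩, h2, w, hw,
            le_con hwy⟩)
      have h2 := (Finset.card_le_card h1).trans (Finset.card_insert_le _ _)
      have h3 := P_con_le (G := G) (W := W') hvS huW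
      have h4 := noDense ih hM hK W' hW'S (fun e ↦ hvW' (e ▸ hv)) (by omega)
      omega

end H47G
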