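import Pool.Agent.Lib.H47G.Menger

/-!
# Massed pairs

A pair `(G, X, H)` (`X` the roots, `H` the other vertices) is massed if there are more than
`m |H|` edges with an end in `H`, and at most `m |W|` edges with an end in `W`, for every
`W ⊆ H` with fewer than `|X|` neighbours.
-/

open Classical

namespace H47G

variable {V : Type} {G : SimpleGraph V}

/-- The neighbours of `W` in `S \ W`. -/
noncomputable def nb (G : SimpleGraph V) (S W : Finset V) : Finset V :=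
  (S \ W).filter fun y ↦ ∃ w ∈ W, G.Adj w y

/-- The ordered pairs of adjacent vertices in `S` one of which is in `W`. -/
noncomputable def P (G : SimpleGraph V) (S W : Finset V) : Finset (V × V) :=
  (pairs G S).filter fun q ↦ q.1 ∈ W ∨ q.2 ∈ W

theorem mem_nb {S W : Finset V} {y : V} :
    y ∈ nb G S W ↔ y ∈ S ∧ y ∉ W ∧ ∃ w ∈ W, G.Adj w y := by
  simp [nb, and_assoc]

theorem mem_P {S W : Finset V} {q : V × V} :
    q ∈ P G S W ↔ q.1 ∈ S ∧ q.2 ∈ S ∧ G.Adj q.1 q.2 ∧ (q.1 ∈ W ∨ q.2 ∈ W) := by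
  simp [P, mem_pairs, and_assoc]

theorem nb_subset {S W : Finset V} : nb G S W ⊆ S := fun _ hy ↦ (mem_nb.1 hy).1

theorem nb_disjoint {S W : Finset V} : Disjoint (nb G S W) W :=
  Finset.disjoint_left.2 fun _ hy hW ↦ (mem_nb.1 hy).2.1 hW

theorem nb_self_subset {X H : Finset V} : nb G (X ∪ H) H ⊆ X := by
  intro y hy
  obtain ⟨h1, h2, -⟩ := mem_nb.1 hy
  rcases Finset.mem_union.1 h1 with h | h
  · exact h
  · exact absurd h h2

/-- Restriction to a set and its neighbours. -/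
theorem nb_restrict {S W W' : Finset V} (hW : W ⊆ S) (h : W' ⊆ W) :
    nb G (nb G S W ∪ W) W' = nb G S W' := by
  ext y
  simp only [mem_nb, Finset.mem_union]
  constructor
  · rintro ⟨h1, h2, h3⟩
    refine ⟨?_, h2, h3⟩
    rcases h1 with h1 | h1
    · exact h1.1
    · exact hW h1
  · rintro ⟨h1, h2, w, hw, hwy⟩
    refine ⟨?_, h2, w, hw, hwy⟩
    by_cases hy : y ∈ W
    · exact Or.inr hy
    · exact Or.inl ⟨h1, hy, w, h hw, hwy⟩

theorem P_restrict {S W W' : Finset V} (hW : W ⊆ S) (h : W' ⊆ W) :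
    P G (nb G S W ∪ W) W' = P G S W' := by
  have key : ∀ a b : V, a ∈ W' → b ∈ S → G.Adj a b → b ∈ nb G S W ∪ W := by
    intro a b ha hb hab
    by_cases hbW : b ∈ W
    · exact Finset.mem_union_right _ hbW
    · exact Finset.mem_union_left _ (mem_nb.2 ⟨hb, hbW, a, h ha, hab⟩)
  have sub : nb G S W ∪ W ⊆ S := Finset.union_subset nb_subset hW
  ext ⟨a, b⟩
  simp only [mem_P]
  constructor
  · rintro ⟨h1, h2, h3, h4⟩
    exact ⟨sub h1, sub h2, h3, h4⟩
  · rintro ⟨h1, h2, h3, h4⟩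
    rcases h4 with h4 | h4
    · exact ⟨Finset.mem_union_right _ (h h4), key a b h4 h2 h3, h3, Or.inl h4⟩
    · exact ⟨key b a h4 h1 h3.symm, Finset.mem_union_right _ (h h4), h3, Or.inr h4⟩

/-- The massed pairs of the theorem. -/
structure Massed (m : ℕ) (G : SimpleGraph V) (X H : Finset V) : Prop where
  disj : Disjoint X H
  card : X.card ≤ m
  m1 : 2 * m * H.card < (P G (X ∪ H) H).card
  m2 : ∀ W ⊆ H, (nb G (X ∪ H) W).card < X.card → (P G (X ∪ H) W).card ≤ 2 * m * W.card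

/-- For every partition `(Y, Z \ Y)` of `Z` there are disjoint connected subsets of `S` which
contain `Y` and `Z \ Y`. -/
def Knit (G : SimpleGraph V) (S Z : Finset V) : Prop :=
  ∀ Y ⊆ Z, ∃ F₁ F₂ : Finset V, F₁ ⊆ S ∧ F₂ ⊆ S ∧ Disjoint F₁ F₂ ∧ Y ⊆ F₁ ∧ Z \ Y ⊆ F₂ ∧
    Conn G F₁ ∧ Conn G F₂

theorem Knit.mono {G' : SimpleGraph V} {S Z : Finset V} (h : Knit G S Z)
    (hG : ∀ a b, G.Adj a b → G'.Adj a b) : Knit G' S Z := by
  intro Y hY
  obtain ⟨F₁, F₂, h1, h2, h3, h4, h5, h6, h7⟩ := h Y hY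
  exact ⟨F₁, F₂, h1, h2, h3, h4, h5, h6.mono fun a _ b _ ↦ hG a b, h7.mono fun a _ b _ ↦ hG a b⟩

/-- **Transfer**: a core `C` whose neighbourhood is well linked from `X`. -/
theorem transfer {X H C : Finset V} (hd : Disjoint X H) (hC : C ⊆ H)
    (hmin : ∀ W ⊆ H, C ⊆ W → X.card ≤ (nb G (X ∪ H) W).card)
    (hcore : ∀ R₁ R₂ : Finset V, R₁ ⊆ nb G (X ∪ H) C → R₂ ⊆ nb G (X ∪ H) C → Disjoint R₁ R₂ →
      R₁.card + R₂.card = X.card → X ∩ nb G (X ∪ H) C ⊆ R₁ ∪ R₂ →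
      ∃ F₁ F₂ : Finset V, F₁ ⊆ C ∪ nb G (X ∪ H) C ∧ F₂ ⊆ C ∪ nb G (X ∪ H) C ∧ Disjoint F₁ F₂ ∧
        R₁ ⊆ F₁ ∧ R₂ ⊆ F₂ ∧ Conn G F₁ ∧ Conn G F₂) :
    Knit G (X ∪ H) X := by
  set S := X ∪ H with hS
  set B := nb G S C with hB
  have hXC : X ⊆ S \ C := by
    intro x hx
    exact Finset.mem_sdiff.2 ⟨Finset.mem_union_left _ hx,
      fun h ↦ Finset.disjoint_left.1 hd hx (hC h)⟩
  have hBC : B ⊆ S \ C := by
    intro x hx
    obtain ⟨h1, h2, -⟩ := mem_nb.1 hx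
    exact Finset.mem_sdiff.2 ⟨h1, h2⟩
  have hCS : C ⊆ S := hC.trans Finset.subset_union_right
  obtain ⟨f, f1, f2, f3, f4, f5⟩ := menger (G := G) (k := X.card) hXC hBC (by
    intro Z U hs
    refine (hmin (S \ (Z ∪ U)) ?_ ?_).trans (Finset.card_le_card ?_)
    · intro w hw
      obtain ⟨h1, h2⟩ := Finset.mem_sdiff.1 hw
      rcases Finset.mem_union.1 h1 with h | h
      · exfalso
        apply h2
        by_cases hZ : w ∈ Z
        · exact Finset.mem_union_left _ hZ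
        · exact Finset.mem_union_right _ (hs.au (Finset.mem_sdiff.2 ⟨h, hZ⟩))
      · exact h
    · intro c hc
      refine Finset.mem_sdiff.2 ⟨hCS hc, fun h ↦ ?_⟩
      rcases Finset.mem_union.1 h with h | h
      · exact (Finset.mem_sdiff.1 (hs.zs h)).2 hc
      · exact (Finset.mem_sdiff.1 (Finset.mem_sdiff.1 (hs.us h)).1).2 hc
    · intro y hy
      obtain ⟨h1, h2, w, hw, hwy⟩ := mem_nb.1 hy
      by_contra hyZ
      have hyU : y ∈ U := by
        by_contra hyU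
        exact h2 (Finset.mem_sdiff.2 ⟨h1, by simp [hyZ, hyU]⟩)
      obtain ⟨hw1, hw2⟩ := Finset.mem_sdiff.1 hw
      simp only [Finset.mem_union, not_or] at hw2
      have hyC : y ∉ C := (Finset.mem_sdiff.1 (Finset.mem_sdiff.1 (hs.us hyU)).1).2
      by_cases hwC : w ∈ C
      · exact Finset.disjoint_left.1 hs.ub hyU (mem_nb.2 ⟨h1, hyC, w, hwC, hwy⟩)
      · exact hs.cl y hyU w (Finset.mem_sdiff.2 ⟨hw1, hwC⟩) hw2.1 hw2.2 hwy.symm)
  obtain ⟨x, x1, x2⟩ := hits rfl f f3 f5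
  have xf : ∀ i, x i ∈ f i ∧ x i ∈ X := fun i ↦ Finset.mem_inter.1 (by simp [x1 i])
  choose Q q1 q2 q3 b q4 using fun i ↦ first_hit (f2 i) (xf i).1 (f4 i)
  have hb : ∀ i, b i ∈ Q i ∧ b i ∈ B := fun i ↦ Finset.mem_inter.1 (by simp [q4 i])
  have Qd : ∀ i j, i ≠ j → Disjoint (Q i) (Q j) := fun i j hij ↦ (f5 i j hij).mono (q1 i) (q1 j)
  have binj : Function.Injective b := by
    intro i j hij
    by_contra hne
    exact Finset.disjoint_left.1 (Qd i j hne) (hb i).1 (hij ▸ (hb j).1)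
  intro Y hY
  set I₁ := Finset.univ.filter fun i ↦ x i ∈ Y with hI₁
  set I₂ := Finset.univ.filter fun i ↦ x i ∉ Y with hI₂
  have m1 : ∀ i, i ∈ I₁ ↔ x i ∈ Y := fun i ↦ by simp [hI₁]
  have m2 : ∀ i, i ∈ I₂ ↔ x i ∉ Y := fun i ↦ by simp [hI₂]
  have hI : I₁.card + I₂.card = X.card := by
    rw [hI₁, hI₂, Finset.card_filter_add_card_filter_not, Finset.card_univ, Fintype.card_fin]
  obtain ⟨F₁, F₂, F1, F2, F3, F4, F5, F6, F7⟩ := hcore (I₁.image b) (I₂.image b) (by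
      intro y hy
      obtain ⟨i, -, rfl⟩ := Finset.mem_image.1 hy
      exact (hb i).2) (by
      intro y hy
      obtain ⟨i, -, rfl⟩ := Finset.mem_image.1 hy
      exact (hb i).2) (by
      rw [Finset.disjoint_left]
      intro y hy hy'
      obtain ⟨i, hi, rfl⟩ := Finset.mem_image.1 hy
      obtain ⟨j, hj, hij⟩ := Finset.mem_image.1 hy'
      have := binj hij
      subst this
      exact (m2 _).1 hj ((m1 _).1 hi)) (by
      rw [Finset.card_image_of_injective _ binj, Finset.card_image_of_injective _ binj, hI]) (by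
      intro y hy
      obtain ⟨hyX, hyB⟩ := Finset.mem_inter.1 hy
      obtain ⟨i, rfl⟩ := x2 y hyX
      have h1 : x i ∈ Q i ∩ B := Finset.mem_inter.2 ⟨q2 i, hyB⟩
      rw [q4 i, Finset.mem_singleton] at h1
      rw [h1]
      by_cases hi : x i ∈ Y
      · exact Finset.mem_union_left _ (Finset.mem_image_of_mem b ((m1 i).2 hi))
      · exact Finset.mem_union_right _ (Finset.mem_image_of_mem b ((m2 i).2 hi)))
  have hCB : C ∪ B ⊆ S := Finset.union_subset hCS nb_subset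
  have QS : ∀ i, Q i ⊆ S := fun i ↦ (q1 i).trans ((f1 i).trans Finset.sdiff_subset)
  -- a set `Q j` meets `C ∪ B` only in `b j`
  have Qhit : ∀ j, ∀ t ∈ Q j, t ∈ C ∪ B → t = b j := by
    intro j t ht ht'
    have htC : t ∉ C := (Finset.mem_sdiff.1 (f1 j (q1 j ht))).2
    have htB : t ∈ B := by
      rcases Finset.mem_union.1 ht' with h | h
      · exact absurd h htC
      · exact h
    have h1 : t ∈ Q j ∩ B := Finset.mem_inter.2 ⟨ht, htB⟩
    rwa [q4 j, Finset.mem_singleton] at h1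
  refine ⟨F₁ ∪ I₁.biUnion Q, F₂ ∪ I₂.biUnion Q, ?_, ?_, ?_, ?_, ?_, ?_, ?_⟩
  · exact Finset.union_subset (F1.trans hCB) (Finset.biUnion_subset.2 fun i _ ↦ QS i)
  · exact Finset.union_subset (F2.trans hCB) (Finset.biUnion_subset.2 fun i _ ↦ QS i)
  · rw [Finset.disjoint_left]
    intro t ht ht'
    rcases Finset.mem_union.1 ht with h | h <;> rcases Finset.mem_union.1 ht' with h' | h'
    · exact Finset.disjoint_left.1 F3 h h'
    · obtain ⟨j, hj, hj'⟩ := Finset.mem_biUnion.1 h'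
      have h1 := Qhit j t hj' (F1 h)
      exact Finset.disjoint_left.1 F3 h (h1 ▸ F5 (Finset.mem_image_of_mem b hj))
    · obtain ⟨j, hj, hj'⟩ := Finset.mem_biUnion.1 h
      have h1 := Qhit j t hj' (F2 h')
      exact Finset.disjoint_left.1 F3 (h1 ▸ F4 (Finset.mem_image_of_mem b hj)) h'
    · obtain ⟨i, hi, hi'⟩ := Finset.mem_biUnion.1 h
      obtain ⟨j, hj, hj'⟩ := Finset.mem_biUnion.1 h'
      refine Finset.disjoint_left.1 (Qd i j ?_) hi' hj'
      rintro rfl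
      exact (m2 _).1 hj ((m1 _).1 hi)
  · intro y hy
    obtain ⟨i, rfl⟩ := x2 y (hY hy)
    exact Finset.mem_union_right _ (Finset.mem_biUnion.2 ⟨i, (m1 i).2 hy, q2 i⟩)
  · intro y hy
    obtain ⟨hyX, hyY⟩ := Finset.mem_sdiff.1 hy
    obtain ⟨i, rfl⟩ := x2 y hyX
    exact Finset.mem_union_right _ (Finset.mem_biUnion.2 ⟨i, (m2 i).2 hyY, q2 i⟩)
  · exact F6.biUnion I₁ Q (fun i _ ↦ q3 i) fun i hi ↦
      ⟨b i, Finset.mem_inter.2 ⟨(hb i).1, F4 (Finset.mem_image_of_mem b hi)⟩⟩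
  · exact F7.biUnion I₂ Q (fun i _ ↦ q3 i) fun i hi ↦
      ⟨b i, Finset.mem_inter.2 ⟨(hb i).1, F5 (Finset.mem_image_of_mem b hi)⟩⟩

/-- The graph `G` with the set `N` made complete. -/
def cliq (G : SimpleGraph V) (N : Finset V) : SimpleGraph V where
  Adj a b := a ≠ b ∧ (G.Adj a b ∨ (a ∈ N ∧ b ∈ N))
  symm := ⟨by
    rintro a b ⟨h, h1 | h1⟩
    · exact ⟨h.symm, Or.inl h1.symm⟩
    · exact ⟨h.symm, Or.inr ⟨h1.2, h1.1⟩⟩⟩
  loopless := ⟨fun a h ↦ h.1 rfl⟩

theorem cliq_adj {N : Finset V} {a b : V} :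
    (cliq G N).Adj a b ↔ a ≠ b ∧ (G.Adj a b ∨ (a ∈ N ∧ b ∈ N)) := Iff.rfl

theorem conn_replace {N F' E : Finset V} (hF : Conn (cliq G N) F') (hE : Conn G E)
    (hN : N ∩ F' ⊆ E) (hn : (N ∩ F').Nonempty) : Conn G (F' ∪ E) := by
  obtain ⟨z, hz⟩ := hn
  have hzE := hN hz
  obtain ⟨hzN, hzF⟩ := Finset.mem_inter.1 hz
  refine conn_of_root (z := z) fun A hA hAn hzA ↦ ?_
  by_cases h : (A ∩ E).Nonempty
  · obtain ⟨a, ha, b, hb, hbA, hab⟩ := hE (A ∩ E) Finset.inter_subset_right h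
      (fun e ↦ hzA (Finset.mem_inter.1 (by rw [e]; exact hzE : z ∈ A ∩ E)).1)
    exact ⟨a, (Finset.mem_inter.1 ha).1, b, Finset.mem_union_right _ hb,
      fun h' ↦ hbA (Finset.mem_inter.2 ⟨h', hb⟩), hab⟩
  · have hAE : ∀ a ∈ A, a ∉ E := fun a ha haE ↦ h ⟨a, Finset.mem_inter.2 ⟨ha, haE⟩⟩
    have hAF : A ⊆ F' := by
      intro a ha
      rcases Finset.mem_union.1 (hA ha) with h' | h'
      · exact h'
      · exact absurd h' (hAE a ha)
    obtain ⟨a, ha, b, hb, hbA, hab⟩ := hF A hAF hAn (fun e ↦ hzA (e ▸ hzF))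
    refine ⟨a, ha, b, Finset.mem_union_left _ hb, hbA, ?_⟩
    rcases hab.2 with h' | h'
    · exact h'
    · exact absurd (hN (Finset.mem_inter.2 ⟨h'.1, hAF ha⟩)) (hAE a ha)

/-- A rigid set may be replaced by a complete graph on its neighbourhood. -/
theorem knit_replace {W N T Z : Finset V} (hr : Knit G (W ∪ N) N) (hN : N ⊆ T)
    (hW : Disjoint W T) (h : Knit (cliq G N) T Z) : Knit G (T ∪ W) Z := by
  intro Y hY
  obtain ⟨F₁, F₂, h1, h2, h3, h4, h5, h6, h7⟩ := h Y hY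
  obtain ⟨E₁, E₂, e1, e2, e3, e4, e5, e6, e7⟩ := hr (N ∩ F₁) Finset.inter_subset_left
  have e5' : N ∩ F₂ ⊆ E₂ := by
    intro x hx
    obtain ⟨hx1, hx2⟩ := Finset.mem_inter.1 hx
    refine e5 (Finset.mem_sdiff.2 ⟨hx1, fun h ↦ ?_⟩)
    exact Finset.disjoint_left.1 h3 (Finset.mem_inter.1 h).2 hx2
  have hWN : W ∪ N ⊆ T ∪ W := Finset.union_subset Finset.subset_union_right
    (hN.trans Finset.subset_union_left)
  -- the sets
  have main : ∀ F E : Finset V, F ⊆ T → Conn (cliq G N) F → Conn G E → N ∩ F ⊆ E → E ⊆ W ∪ N →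
      ∃ F', F ⊆ F' ∧ F' ⊆ F ∪ E ∧ Conn G F' := by
    intro F E hF hFc hE hNE hEW
    by_cases hn : (N ∩ F).Nonempty
    · exact ⟨F ∪ E, Finset.subset_union_left, Finset.Subset.refl _, conn_replace hFc hE hNE hn⟩
    · refine ⟨F, Finset.Subset.refl _, Finset.subset_union_left, hFc.mono fun a ha b hb hab ↦ ?_⟩
      rcases hab.2 with h' | h'
      · exact h'
      · exact absurd ⟨a, Finset.mem_inter.2 ⟨h'.1, ha⟩⟩ hn
  obtain ⟨F₁', a1, a2, a3⟩ := main F₁ E₁ h1 h6 e6 e4 e1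
  obtain ⟨F₂', b1, b2, b3⟩ := main F₂ E₂ h2 h7 e7 e5' e2
  refine ⟨F₁', F₂', ?_, ?_, ?_, h4.trans a1, h5.trans b1, a3, b3⟩
  · exact a2.trans (Finset.union_subset (h1.trans Finset.subset_union_left) (e1.trans hWN))
  · exact b2.trans (Finset.union_subset (h2.trans Finset.subset_union_left) (e2.trans hWN))
  · rw [Finset.disjoint_left]
    intro t ht ht'
    have inN : ∀ E : Finset V, E ⊆ W ∪ N → t ∈ E → t ∈ T → t ∈ N := by
      intro E hE htE htT
      rcases Finset.mem_union.1 (hE htE) with h' | h'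
      · exact absurd htT (Finset.disjoint_left.1 hW h')
      · exact h'
    rcases Finset.mem_union.1 (a2 ht) with h' | h' <;>
      rcases Finset.mem_union.1 (b2 ht') with h'' | h''
    · exact Finset.disjoint_left.1 h3 h' h''
    · exact Finset.disjoint_left.1 e3 (e4 (Finset.mem_inter.2 ⟨inN _ e2 h'' (h1 h'), h'⟩)) h''
    · exact Finset.disjoint_left.1 e3 h' (e5' (Finset.mem_inter.2 ⟨inN _ e1 h' (h2 h''), h''⟩))
    · exact Finset.disjoint_left.1 e3 h' h''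

theorem knit_lift {u v : V} (huv : G.Adj u v) {T Z : Finset V} (hv : v ∉ T)
    (h : Knit (con G u v) T Z) : Knit G (insert v T) Z := by
  intro Y hY
  obtain ⟨F₁, F₂, h1, h2, h3, h4, h5, h6, h7⟩ := h Y hY
  have v1 : v ∉ F₁ := fun h ↦ hv (h1 h)
  have v2 : v ∉ F₂ := fun h ↦ hv (h2 h)
  exact ⟨lift u v F₁, lift u v F₂,
    lift_subset (h1.trans (Finset.subset_insert _ _)) (Finset.mem_insert_self _ _),
    lift_subset (h2.trans (Finset.subset_insert _ _)) (Finset.mem_insert_self _ _),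
    lift_disjoint h3 v1 v2, h4.trans subset_lift, h5.trans subset_lift,
    h6.lift huv v1, h7.lift huv v2⟩

/-- A minimal violation of `m2` gives a massed pair. -/
theorem massed_of_violation {m : ℕ} {X H : Finset V} (hX : X.card ≤ m)
    (h : ∃ W ⊆ H, (nb G (X ∪ H) W).card < X.card ∧ 2 * m * W.card < (P G (X ∪ H) W).card) :
    ∃ W ⊆ H, (nb G (X ∪ H) W).card < X.card ∧ 2 * m * W.card < (P G (X ∪ H) W).card ∧
      Massed m G (nb G (X ∪ H) W) W := by
  let T := H.powerset.filter fun W ↦ (nb G (X ∪ H) W).card < X.card ∧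
    2 * m * W.card < (P G (X ∪ H) W).card
  have hT : T.Nonempty := by
    obtain ⟨W, h1, h2, h3⟩ := h
    exact ⟨W, by simp [T, h1, h2, h3]⟩
  obtain ⟨W, hW, hmin⟩ := T.exists_min_image Finset.card hT
  obtain ⟨h1, h2, h3⟩ := by
    simpa only [T, Finset.mem_filter, Finset.mem_powerset] using hW
  have hWS : W ⊆ X ∪ H := h1.trans Finset.subset_union_right
  refine ⟨W, h1, h2, h3, nb_disjoint, h2.le.trans hX, ?_, fun W' hW' hlt ↦ ?_⟩
  · rw [P_restrict hWS (Finset.Subset.refl _)]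
    exact h3
  · rw [nb_restrict hWS hW'] at hlt
    rw [P_restrict hWS hW']
    by_contra hc
    push Not at hc
    have hmem : W' ∈ T := by
      simp only [T, Finset.mem_filter, Finset.mem_powerset]
      exact ⟨hW'.trans h1, hlt.trans h2, hc⟩
    have hle := hmin W' hmem
    have heq : W' = W := Finset.eq_of_subset_of_card_le hW' hle
    subst heq
    exact lt_irrefl _ hlt

end H47G
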